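import Pool.Agent.N209.CD.Conc
import Pool.Agent.N209.MT.Gen

/-!
# Splittings from conservativity
-/

set_option autoImplicit false
set_option linter.unusedSectionVars false
set_option linter.unusedSimpArgs false
set_option backward.isDefEq.respectTransparency false
set_option backward.defeqAttrib.useBackward true

open CategoryTheory Limits MonoidalCategory Pretriangulated Triangulated

namespace Pool.Agent.N209.CD

open Pool.Agent.Y116.MT Pool.Agent.N209.MT Pool.Agent.V1178.MT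

universe v u w

open Functor.LaxMonoidal

section

variable {C : Type u} [Category.{v} C] [Preadditive C] [HasZeroObject C] [HasShift C ℤ]
  [∀ n : ℤ, (shiftFunctor C n).Additive] [Pretriangulated C] [MonoidalCategory C]
  [SymmetricCategory C] [TensorTriangulated C] [MonoidalPreadditive C] [RightRigidCategory C]
  {E : Type w} [Field E] {R : Realisation C E}

/-- The connecting morphism of a morphism from the unit which is not killed is killed. -/
lemma killed_connecting {W Z : C} {γ : 𝟙_ C ⟶ W} (hγ : R.H.map γ ≠ 0) {p : W ⟶ Z}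
    {d : Z ⟶ (𝟙_ C)⟦(1 : ℤ)⟧} (hT : Triangle.mk γ p d ∈ distTriang C) : Killed R d := by
  intro n
  by_cases hn1 : n + 1 = 0
  · obtain rfl : n = -1 := by omega
    have h1 := mono_gamma hγ
    have h2 : d⟦(-1 : ℤ)⟧' ≫ (γ⟦(1 : ℤ)⟧')⟦(-1 : ℤ)⟧' = 0 := by
      rw [← Functor.map_comp, comp31 hT, Functor.map_zero]
    have h3 : (γ⟦(1 : ℤ)⟧')⟦(-1 : ℤ)⟧' ≫ (shiftFunctorCompIsoId C (1 : ℤ) (-1) (by omega)).hom.app W
        = (shiftFunctorCompIsoId C (1 : ℤ) (-1) (by omega)).hom.app (𝟙_ C) ≫ γ :=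
      (shiftFunctorCompIsoId C (1 : ℤ) (-1) (by omega)).hom.naturality γ
    have h4 : (d⟦(-1 : ℤ)⟧' ≫ (shiftFunctorCompIsoId C (1 : ℤ) (-1) (by omega)).hom.app (𝟙_ C)) ≫
        γ = 0 := by
      rw [Category.assoc, ← h3, ← Category.assoc, h2, zero_comp]
    have h5 : R.H.map (d⟦(-1 : ℤ)⟧' ≫
        (shiftFunctorCompIsoId C (1 : ℤ) (-1) (by omega)).hom.app (𝟙_ C)) = 0 := by
      rw [← cancel_mono (R.H.map γ), ← Functor.map_comp, h4, Functor.map_zero, zero_comp]
    rw [← cancel_mono (R.H.map ((shiftFunctorCompIsoId C (1 : ℤ) (-1) (by omega)).hom.app (𝟙_ C))),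
      ← Functor.map_comp, zero_comp]
    exact h5
  · have h1 : IsZero (R.H.obj ((𝟙_ C)⟦(1 : ℤ)⟧⟦n⟧)) :=
      (deg_unit (R := R) (n + 1) hn1).of_iso
        (R.H.mapIso ((shiftFunctorAdd' C 1 n (n + 1) (by omega)).app (𝟙_ C)).symm)
    exact h1.eq_of_tgt _ _

lemma epi_of_killed {X Y Z : C} {f : X ⟶ Y} {g : Y ⟶ Z} {h : Z ⟶ X⟦(1 : ℤ)⟧}
    (hT : Triangle.mk f g h ∈ distTriang C) (hk : Killed R h) (n : ℤ) :
    Epi (R.H.map (g⟦n⟧')) := by
  let _ := Functor.ShiftSequence.tautological R.H ℤ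
  exact (R.H.homologySequence_epi_shift_map_mor₁_iff _ (rotD hT) n).2 (hk n)

variable [Linear ℚ C] [IsTriangulated C]

/-- An endomorphism which is killed, subtracted from the identity, is an isomorphism if the
realisation is conservative. -/
lemma isIso_one_sub (hR : Conservative R) {X : C} {g : X ⟶ X} (hg : Killed R g) :
    IsIso (𝟙 X - g) := by
  refine isIso_of_conservative hR _ fun i => ?_
  rw [Functor.map_sub, Functor.map_sub, hg i, sub_zero, CategoryTheory.Functor.map_id,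
    CategoryTheory.Functor.map_id]
  infer_instance

/-- Let the realisation be conservative. A morphism `s` from the unit which is not killed, such that
`s ≫ e = s` for some endomorphism `e` whose realisation is concentrated in degree zero, is not
numerically trivial. -/
theorem split_of_conservative (hR : Conservative R) {W : C}
    (Pr : ObjectProperty C) (hPu : Pr (𝟙_ C)) (hPQ : ∀ X, Pr X → Pr (X ⊗ W))
    (hP0 : ∀ X, Pr X → ∀ (m : ℤ), 0 < m → ∀ f : X ⟶ (𝟙_ C)⟦m⟧, f = 0)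
    {s : 𝟙_ C ⟶ W} (hs : R.H.map s ≠ 0) {e : W ⟶ W} (he : Conc R e) (hse : s ≫ e = s) :
    ∃ r : W ⟶ 𝟙_ C, s ≫ r ≠ 0 := by
  by_contra hcon
  push Not at hcon
  obtain ⟨Z, q, δ, hT⟩ := distinguished_cocone_triangle s
  obtain ⟨c, hc1, hc2⟩ := tri_mor hT hT (𝟙 _) e (by rw [hse, Category.id_comp])
  have hk := killed_connecting hs hT
  have hc : Conc R c := by
    intro i hi
    have h1 := epi_of_killed hT hk i
    rw [← cancel_epi (R.H.map (q⟦i⟧')), ← Functor.map_comp, ← Functor.map_comp, hc1,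
      Functor.map_comp, Functor.map_comp, he i hi, zero_comp, comp_zero]
  have hcδ : c ≫ δ = δ := by
    rw [← hc2, CategoryTheory.Functor.map_id, Category.comp_id]
  obtain ⟨n, hn⟩ : ∃ n, Module.finrank E (R.H.obj Z) < n := ⟨_, Nat.lt_succ_self _⟩
  have h1 := starN_ne_zero δ s q hT Pr hPQ (fun X hX m f => un_zero (hP0 X hX) m f) hPu hcon
    (not_isZero_unit R) n
  apply h1
  have h2 := killed_zMap_alt hc hn
  have h3 : (zMap (𝟙_ C) c n ≫ alt (𝟙_ C) Z n) ≫ starN δ (𝟙 (𝟙_ C)) n =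
      (n.factorial : ℤ) • starN δ (𝟙 (𝟙_ C)) n := by
    rw [Category.assoc, alt_star, Preadditive.comp_zsmul, zMap_starN δ c hcδ]
  let g : pw (𝟙_ C) Z n ⟶ pw (𝟙_ C) Z n := ((n.factorial : ℚ)⁻¹) • (zMap (𝟙_ C) c n ≫ alt (𝟙_ C) Z n)
  have h4 : g ≫ starN δ (𝟙 (𝟙_ C)) n = starN δ (𝟙 (𝟙_ C)) n := by
    simp only [g]
    rw [Linear.smul_comp, h3, ← Int.cast_smul_eq_zsmul ℚ, smul_smul, Int.cast_natCast,
      inv_mul_cancel₀ (by exact_mod_cast Nat.factorial_ne_zero n), one_smul]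
  have h5 : Killed R g := by
    have h6 : g = (zMap (𝟙_ C) c n ≫ alt (𝟙_ C) Z n) ≫ (((n.factorial : ℚ)⁻¹) • 𝟙 _) := by
      rw [Linear.comp_smul, Category.comp_id]
    rw [h6]
    exact h2.comp_right _
  have h6 := isIso_one_sub hR h5
  rw [← cancel_epi (𝟙 _ - g), comp_zero, Preadditive.sub_comp, Category.id_comp, h4, sub_self]

end

end Pool.Agent.N209.CD
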