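import Pool.Agent.N209.CD.Cons
import Pool.Agent.N209.CD.Split

/-!
# Frobenius; the equivalence of conservativity with standard conjecture D
-/

set_option autoImplicit false
set_option linter.unusedSectionVars false
set_option linter.unusedSimpArgs false
set_option backward.isDefEq.respectTransparency false
set_option backward.defeqAttrib.useBackward true

open CategoryTheory Limits MonoidalCategory Pretriangulated Triangulated ObjectProperty

namespace Pool.Agent.N209.CD

open Pool.Agent.Y116.MT Pool.Agent.N209.MT Pool.Agent.V1178.MT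

universe v u w v' u'

section Poly

variable {C : Type u} [Category.{v} C] [Preadditive C] [Linear ℚ C]

/-- The polynomial `P` evaluated at an endomorphism. -/
noncomputable abbrev pev {X : C} (f : X ⟶ X) (P : Polynomial ℚ) : X ⟶ X :=
  Polynomial.aeval (R := ℚ) (A := End X) f P

lemma pev_add {X : C} (f : X ⟶ X) (P Q : Polynomial ℚ) : pev f (P + Q) = pev f P + pev f Q :=
  map_add _ _ _

lemma pev_mul {X : C} (f : X ⟶ X) (P Q : Polynomial ℚ) : pev f (P * Q) = pev f Q ≫ pev f P :=
  map_mul (Polynomial.aeval (R := ℚ) (A := End X) f) P Q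

/-- The powers of an endomorphism. -/
def epow {X : C} (f : End X) (n : ℕ) : X ⟶ X := f ^ n

lemma epow_zero {X : C} (f : X ⟶ X) : epow f 0 = 𝟙 X := pow_zero (M := End X) f

lemma epow_succ {X : C} (f : X ⟶ X) (n : ℕ) : epow f (n + 1) = f ≫ epow f n :=
  pow_succ (M := End X) f n

lemma pev_monomial {X : C} (f : X ⟶ X) (n : ℕ) (a : ℚ) :
    pev f (Polynomial.monomial n a) = a • epow f n := by
  have h : Polynomial.aeval (R := ℚ) (A := End X) f (Polynomial.monomial n a) =
      a • (epow f n : End X) := by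
    rw [Polynomial.aeval_monomial, ← Algebra.smul_def]
    rfl
  exact h

lemma comp_epow {X Y : C} (s : X ⟶ Y) (f : X ⟶ X) (g : Y ⟶ Y) (h : s ≫ g = f ≫ s) (n : ℕ) :
    s ≫ epow g n = epow f n ≫ s := by
  induction n with
  | zero => rw [epow_zero, epow_zero, Category.comp_id, Category.id_comp]
  | succ n ih =>
    rw [epow_succ, epow_succ, ← Category.assoc, h, Category.assoc, ih, Category.assoc]

lemma comp_pev {X Y : C} (s : X ⟶ Y) (f : X ⟶ X) (g : Y ⟶ Y) (h : s ≫ g = f ≫ s)
    (P : Polynomial ℚ) : s ≫ pev g P = pev f P ≫ s := by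
  induction P using Polynomial.induction_on' with
  | add p q hp hq => rw [pev_add, pev_add, Preadditive.comp_add, Preadditive.add_comp, hp, hq]
  | monomial n a =>
    rw [pev_monomial, pev_monomial, Linear.comp_smul, Linear.smul_comp, comp_epow s f g h]

lemma pev_id {X : C} (P : Polynomial ℚ) : pev (𝟙 X) P = P.eval 1 • 𝟙 X := by
  induction P using Polynomial.induction_on' with
  | add p q hp hq => rw [pev_add, hp, hq, Polynomial.eval_add, add_smul]
  | monomial n a =>
    have h1 : epow (𝟙 X) n = 𝟙 X := one_pow (M := End X) n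
    rw [pev_monomial, h1, Polynomial.eval_monomial, one_pow, mul_one]

lemma map_epow {D : Type u'} [Category.{v'} D] [Preadditive D] [Linear ℚ D] (F : C ⥤ D) {X : C} (f : X ⟶ X) (n : ℕ) :
    F.map (epow f n) = epow (F.map f) n := by
  induction n with
  | zero => rw [epow_zero, epow_zero, CategoryTheory.Functor.map_id]
  | succ n ih => rw [epow_succ, epow_succ, Functor.map_comp, ih]

lemma map_pev {D : Type u'} [Category.{v'} D] [Preadditive D] [Linear ℚ D] (F : C ⥤ D)
    [F.Additive] {X : C} (f : X ⟶ X) (P : Polynomial ℚ) : F.map (pev f P) = pev (F.map f) P := by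
  induction P using Polynomial.induction_on' with
  | add p q hp hq => rw [pev_add, pev_add, Functor.map_add, hp, hq]
  | monomial n a =>
    rw [pev_monomial, pev_monomial, Functor.map_smul, map_epow]

end Poly

section

variable {C : Type u} [Category.{v} C] [Preadditive C] [HasZeroObject C] [HasShift C ℤ]
  [∀ n : ℤ, (shiftFunctor C n).Additive] [Pretriangulated C] [MonoidalCategory C]
  [SymmetricCategory C] [TensorTriangulated C] [MonoidalPreadditive C] [RightRigidCategory C]
  {E : Type w} [Field E]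
  (R : Realisation C E) [Linear ℚ C]

include R in
lemma charZero_of : CharZero E := charZero_of_injective_ringHom (ratHom R).injective

lemma map_rat_smul {X Y : C} (f : X ⟶ Y) (q : ℚ) : R.H.map (q • f) = ratHom R q • R.H.map f := by
  have := charZero_of R
  have hq : (q.den : ℚ) • (q • f) = (q.num : ℚ) • f := by
    rw [smul_smul, Rat.den_mul_eq_num]
  have h1 : (q.den : ℤ) • (q • f) = q.num • f := by
    rw [← Int.cast_smul_eq_zsmul ℚ, ← Int.cast_smul_eq_zsmul ℚ]
    exact_mod_cast hq
  have h2 := congrArg R.H.map h1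
  rw [Functor.map_zsmul, Functor.map_zsmul] at h2
  have h3 : (q.den : E) ≠ 0 := by exact_mod_cast q.den_ne_zero
  have h4 : (q.den : E) • R.H.map (q • f) = (q.den : E) • (ratHom R q • R.H.map f) := by
    rw [smul_smul]
    have h5 : (q.den : E) * ratHom R q = (q.num : E) := by
      have h6 : (q.den : E) = ratHom R (q.den : ℚ) := by simp
      rw [h6, ← map_mul, Rat.den_mul_eq_num]
      simp
    rw [h5]
    have h6 : ∀ (n : ℤ) (g : R.H.obj X ⟶ R.H.obj Y), (n : E) • g = n • g := by
      intro n g
      exact Int.cast_smul_eq_zsmul E n g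
    have h7 : ((q.den : ℤ) : E) = (q.den : E) := by simp
    rw [← h7, h6, h6, h2]
  have h5 := congrArg (fun g => (q.den : E)⁻¹ • g) h4
  simp only [smul_smul, inv_mul_cancel₀ h3, one_smul] at h5
  rw [h5, ← mul_assoc, inv_mul_cancel₀ h3, one_mul]

lemma H_pev {X : C} (f : X ⟶ X) (P : Polynomial ℚ) :
    (R.H.map (pev f P)).hom = Polynomial.aeval (R := E) (A := Module.End E (R.H.obj X))
      (R.H.map f).hom (P.map (ratHom R)) := by
  induction P using Polynomial.induction_on' with
  | add p q hp hq => rw [pev_add, Functor.map_add, ModuleCat.hom_add, hp, hq, Polynomial.map_add,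
      map_add]
  | monomial n a =>
    rw [pev_monomial, map_rat_smul, Polynomial.map_monomial, Polynomial.aeval_monomial,
      ← Algebra.smul_def, ModuleCat.hom_smul]
    congr 1
    induction n with
    | zero =>
      rw [epow_zero, pow_zero]
      exact congrArg ModuleCat.Hom.hom (R.H.map_id X)
    | succ n ih =>
      rw [epow_succ, Functor.map_comp, ModuleCat.hom_comp, ih, pow_succ]
      rfl

end

section

lemma rpow_ne {q : ℝ} (hq : 1 < q) {i j : ℤ} (h : i ≠ j) :
    q ^ (-(i : ℝ) / 2) ≠ q ^ (-(j : ℝ) / 2) := by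
  intro h1
  have h2 := Real.rpow_right_inj (by linarith : 0 < q) hq.ne' |>.1 h1
  apply h
  have h3 : (i : ℝ) = j := by linarith
  exact_mod_cast h3

lemma coprime_of_roots {q : ℝ} (hq : 1 < q) {i j : ℤ} (h : i ≠ j) {P Q : Polynomial ℚ}
    (hP : ∀ z : ℂ, Polynomial.aeval z P = 0 → ‖z‖ = q ^ (-(i : ℝ) / 2))
    (hQ : ∀ z : ℂ, Polynomial.aeval z Q = 0 → ‖z‖ = q ^ (-(j : ℝ) / 2)) : IsCoprime P Q := by
  rw [Polynomial.isCoprime_iff_aeval_ne_zero_of_isAlgClosed ℚ ℂ]
  intro z
  by_contra hcon
  push Not at hcon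
  exact rpow_ne hq h ((hP z hcon.1).symm.trans (hQ z hcon.2))

end

section

variable {C : Type u} [Category.{v} C] [Preadditive C] [HasZeroObject C] [HasShift C ℤ]
  [∀ n : ℤ, (shiftFunctor C n).Additive] [Pretriangulated C] [MonoidalCategory C]
  [SymmetricCategory C] [TensorTriangulated C] [MonoidalPreadditive C] [RightRigidCategory C]
  {E : Type w} [Field E]
  {R : Realisation C E} [Linear ℚ C] {W : ObjectProperty C} {q : ℝ} (F : Frobenius R W q)

/-- The Frobenius separates weights. -/
noncomputable def Frobenius.weights : Weights R W where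
  θ := { app := fun X => R.H.map (F.Φ.app X)
         naturality := fun X Y f => by
           rw [← Functor.map_comp, ← Functor.map_comp]
           congr 1
           exact F.Φ.naturality f }
  pure i P := ∃ P₀ : Polynomial ℚ,
    (∀ z : ℂ, Polynomial.aeval z P₀ = 0 → ‖z‖ = q ^ (-(i : ℝ) / 2)) ∧ P = P₀.map (ratHom R)
  coprime := by
    rintro i j _ _ hij ⟨P, hP, rfl⟩ ⟨Q, hQ, rfl⟩
    exact (coprime_of_roots F.one_lt hij hP hQ).map (Polynomial.mapRingHom (ratHom R))
  exists_pure := by
    intro M hM i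
    obtain ⟨P, -, hP, hP'⟩ := F.pure M hM i
    refine ⟨P.map (ratHom R), ⟨P, hP, rfl⟩, ?_⟩
    have h1 := H_pev R (F.Φ.app (M⟦i⟧)) P
    rw [show R.H.map (pev (F.Φ.app (M⟦i⟧)) P) = 0 from hP'] at h1
    exact h1.symm

/-- The Frobenius of an object. -/
def Frobenius.φ (X : C) : X ⟶ X := F.Φ.app X

lemma Frobenius.φ_shift (X : C) (n : ℤ) : F.φ (X⟦n⟧) = (F.φ X)⟦n⟧' := F.shift X n

lemma Frobenius.φ_natural {X Y : C} (f : X ⟶ Y) : f ≫ F.φ Y = F.φ X ≫ f := F.Φ.naturality f

include F in
/-- Over a finite field the Künneth components of degree zero of the classes lift. -/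
theorem Frobenius.lifts : ComponentLifts R W := by
  intro M hM s
  choose P hP0 hP hP' using F.pure M hM
  obtain ⟨N, hN⟩ := R.bounded M
  let I : Finset ℤ := (Finset.Icc (-(N : ℤ)) N).erase 0
  have hne : ∀ i ∈ I, (P i).eval 1 ≠ 0 := by
    intro i hi h
    have h1 := hP i 1 (by
      rw [← map_one (algebraMap ℚ ℂ), Polynomial.aeval_algebraMap_apply, Polynomial.coe_aeval_eq_eval,
        h, map_zero])
    have h2 : q ^ (-(i : ℝ) / 2) = q ^ (-((0 : ℤ) : ℝ) / 2) := by
      rw [← h1]
      simp
    exact rpow_ne F.one_lt (Finset.ne_of_mem_erase hi) h2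
  let Q : Polynomial ℚ := ∏ i ∈ I, (Polynomial.C ((P i).eval 1)⁻¹ * P i)
  have hQ1 : Q.eval 1 = 1 := by
    simp only [Q, Polynomial.eval_prod, Polynomial.eval_mul, Polynomial.eval_C]
    exact Finset.prod_eq_one fun i hi => inv_mul_cancel₀ (hne i hi)
  have hse : s ≫ pev (F.φ M) Q = s := by
    have h1 : F.φ (𝟙_ C) = 𝟙 _ := F.unit
    rw [comp_pev s _ _ (F.φ_natural s), h1, pev_id, hQ1, one_smul, Category.id_comp]
  refine ⟨pev (F.φ M) Q, ?_, by rw [hse], by rw [← Category.assoc, hse, hse]⟩
  intro i hi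
  by_cases hiI : i ∈ I
  · have h1 : (pev (F.φ M) Q)⟦i⟧' = pev (F.φ (M⟦i⟧)) Q := by
      rw [map_pev, F.φ_shift]
    rw [h1]
    have h2 : Q = P i * (Polynomial.C ((P i).eval 1)⁻¹ *
        ∏ j ∈ I.erase i, (Polynomial.C ((P j).eval 1)⁻¹ * P j)) := by
      simp only [Q]
      rw [← Finset.mul_prod_erase I _ hiI]
      ring
    rw [h2, pev_mul, Functor.map_comp]
    have h3 : R.H.map (pev (F.φ (M⟦i⟧)) (P i)) = 0 := hP' i
    rw [h3, comp_zero]
  · have h1 : IsZero (R.H.obj (M⟦i⟧)) := by
      apply hN
      simp only [I, Finset.mem_erase, Finset.mem_Icc, not_and, not_le] at hiI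
      have := hiI hi
      omega
    exact h1.eq_of_src _ _

end

section

variable {C : Type u} [Category.{v} C] [Preadditive C] [HasZeroObject C] [HasShift C ℤ]
  [∀ n : ℤ, (shiftFunctor C n).Additive] [Pretriangulated C] [IsTriangulated C]
  [MonoidalCategory C] [SymmetricCategory C] [TensorTriangulated C] [MonoidalPreadditive C]
  [RightRigidCategory C] [Linear ℚ C] {E : Type w} [Field E] {R : Realisation C E}
  {W : ObjectProperty C} (hW : IsChowClass W)

include hW

lemma IsChowClass.neg : Neg W where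
  retract := hW.retract
  zero := by
    have := hW.retract
    exact ⟨⟨_, isZero_zero C, W.prop_of_retract
      ({ i := 0, r := 0, retract := (isZero_zero C).eq_of_src _ _ } :
        Retract (HasZeroObject.zero' C).zero (𝟙_ C))
      hW.unit⟩⟩
  sum := hW.sum
  orth := hW.orth

/-- **Conservativity implies standard conjecture D.** -/
theorem homNum_of_conservative (hR : Conservative R) (hl : ComponentLifts R W) : HomNum R W := by
  intro M hM s hs
  obtain ⟨e, he, hse, hsee⟩ := hl M hM s
  obtain ⟨r, hr⟩ := split_of_conservative hR (W := M) W hW.unit (fun X hX => hW.tensor _ _ hX hM)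
    (fun X hX m hm f => hW.orth _ _ hX hW.unit m hm f) (s := s ≫ e) (by rwa [hse]) he
    (by rw [Category.assoc, hsee])
  exact ⟨e ≫ r, by rwa [← Category.assoc]⟩

lemma conservativeOn_of_conservative (hR : Conservative R) : ConservativeOn R W :=
  fun _ _ _ _ f hf => isIso_of_conservative hR f hf

/-- Conservativity from conservativity on pure objects and standard conjecture D. -/
theorem conservative_of_homNum (hQ : ∀ e : 𝟙_ C ⟶ 𝟙_ C, ∃ q : ℚ, e = q • 𝟙 _)
    (w : Weights R W) (hc : ConservativeOn R W) (hD : HomNum R W) : Conservative R := by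
  refine conservative_of_weights hW.neg w hc ?_ hW.generates
  intro M N hM hN f
  have h1 := hW.sum M N hM hN
  exact regular_hom hQ (fun s hs => hD _ (hW.tensor _ _ h1 (hW.dual _ h1)) s hs) f

end

end Pool.Agent.N209.CD
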