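import Pool.Agent.V1178.MT.Defs

/-!
# Conservativity and standard conjecture D: definitions
-/

set_option autoImplicit false

open CategoryTheory Limits MonoidalCategory Pretriangulated Triangulated

namespace Pool.Agent.N209.CD

open Pool.Agent.Y116.MT

universe v u w

section

variable {C : Type u} [Category.{v} C] [Preadditive C] [HasZeroObject C] [HasShift C ℤ]
  [∀ n : ℤ, (shiftFunctor C n).Additive] [Pretriangulated C] [MonoidalCategory C]
  [SymmetricCategory C] [TensorTriangulated C] [RightRigidCategory C]

/-- A class of objects with the formal properties of the class of Chow motives in the category of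
geometric motives: it contains the unit, is stable under direct summands, sums, tensor products
and duals, has no positive extensions (`Hom(M, N⟦n⟧) = 0` for `n > 0`), and it generates the
category as a triangulated category, with direct summands. -/
structure IsChowClass (W : ObjectProperty C) : Prop where
  retract : W.IsStableUnderRetracts
  unit : W (𝟙_ C)
  sum (M N : C) : W M → W N → W (M ⊞ N)
  tensor (M N : C) : W M → W N → W (M ⊗ N)
  dual (M : C) : W M → W Mᘁ
  orth (M N : C) : W M → W N → ∀ n : ℤ, 0 < n → ∀ f : M ⟶ N⟦n⟧, f = 0
  generates : W.IsClassicalTriangulatedGenerator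

end

section

variable {C : Type u} [Category.{v} C] [Preadditive C] [HasZeroObject C] [HasShift C ℤ]
  [∀ n : ℤ, (shiftFunctor C n).Additive] [Pretriangulated C] [MonoidalCategory C]
  [SymmetricCategory C] [TensorTriangulated C] {E : Type w} [Field E]

/-- The realisation `R` is conservative on the class `W`: a morphism between objects of `W` which
induces isomorphisms on cohomology is an isomorphism. -/
def ConservativeOn (R : Realisation C E) (W : ObjectProperty C) : Prop :=
  ∀ M N : C, W M → W N → ∀ f : M ⟶ N, (∀ i : ℤ, IsIso (R.H.map (f⟦i⟧'))) → IsIso f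

/-- Homological equivalence for `R` and numerical equivalence coincide on the class `W` (standard
conjecture D): a morphism `s : 𝟙 ⟶ M` with non-zero cohomology class is not numerically trivial,
which means that there is `r : M ⟶ 𝟙` with `s ≫ r ≠ 0`. -/
def HomNum (R : Realisation C E) (W : ObjectProperty C) : Prop :=
  ∀ M : C, W M → ∀ s : 𝟙_ C ⟶ M, R.H.map s ≠ 0 → ∃ r : M ⟶ 𝟙_ C, s ≫ r ≠ 0

/-- Weights: a natural endomorphism `θ` of the cohomology (for instance the Frobenius, or the
operator which is multiplication by `j` on the part of weight `j` of a functorial splitting of the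
weight filtration) such that on the `i`-th cohomology of each object of the class `W` a polynomial
in `θ` which is pure of weight `i` vanishes, where pure polynomials of different weights are
coprime. -/
structure Weights (R : Realisation C E) (W : ObjectProperty C) where
  /-- the operator -/
  θ : R.H ⟶ R.H
  /-- the polynomials which are pure of a given weight -/
  pure : ℤ → Polynomial E → Prop
  coprime {i j : ℤ} {P Q : Polynomial E} : i ≠ j → pure i P → pure j Q → IsCoprime P Q
  exists_pure (M : C) : W M → ∀ i : ℤ, ∃ P, pure i P ∧
    Polynomial.aeval (R := E) (A := Module.End E (R.H.obj (M⟦i⟧))) (θ.app (M⟦i⟧)).hom P = 0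

/-- The Künneth components of degree zero of the classes of objects of `W` lift: for each
`s : 𝟙 ⟶ M` there is an endomorphism `e` of `M` whose cohomology is concentrated in degree zero,
with `H(s ≫ e) = H(s)` and `s ≫ e ≫ e = s ≫ e`. This holds if the Künneth projector of degree zero
of `M` lifts to an idempotent endomorphism of `M`. -/
def ComponentLifts (R : Realisation C E) (W : ObjectProperty C) : Prop :=
  ∀ M : C, W M → ∀ s : 𝟙_ C ⟶ M, ∃ e : M ⟶ M, (∀ i : ℤ, i ≠ 0 → R.H.map (e⟦i⟧') = 0) ∧
    R.H.map (s ≫ e) = R.H.map s ∧ s ≫ e ≫ e = s ≫ e

variable [Linear ℚ C]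

/-- The situation over a finite field with `q` elements: the Frobenius is an endomorphism `Φ` of
the identity functor, compatible with the shift, which is the identity on the unit, and (the
Riemann hypothesis, proved by Deligne) on the `i`-th cohomology of each object of the class `W` a
non-zero polynomial in the Frobenius with rational coefficients vanishes, all of whose complex
roots have absolute value `q ^ (-i / 2)`. -/
structure Frobenius (R : Realisation C E) (W : ObjectProperty C) (q : ℝ) where
  one_lt : 1 < q
  /-- the Frobenius -/
  Φ : 𝟭 C ⟶ 𝟭 C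
  unit : Φ.app (𝟙_ C) = 𝟙 (𝟙_ C)
  shift (X : C) (n : ℤ) : Φ.app (X⟦n⟧) = (Φ.app X)⟦n⟧'
  pure (M : C) : W M → ∀ i : ℤ, ∃ P : Polynomial ℚ, P ≠ 0 ∧
    (∀ z : ℂ, Polynomial.aeval z P = 0 → ‖z‖ = q ^ (-(i : ℝ) / 2)) ∧
    R.H.map (Polynomial.aeval (R := ℚ) (A := End (M⟦i⟧)) (Φ.app (M⟦i⟧)) P) = 0

end

end Pool.Agent.N209.CD
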