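import Pool.Agent.N209.MT.LocT

/-!
# Endomorphisms whose realisation is concentrated in degree zero, and their tensor powers
-/

set_option autoImplicit false
set_option linter.unusedSectionVars false
set_option linter.unusedSimpArgs false
set_option backward.isDefEq.respectTransparency false
set_option backward.defeqAttrib.useBackward true

open CategoryTheory Limits MonoidalCategory Pretriangulated Triangulated TensorProduct

namespace Pool.Agent.N209.CD

open Pool.Agent.Y116.MT Pool.Agent.N209.MT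

universe v u w

open Functor.LaxMonoidal

section ZMap

variable {C : Type u} [Category.{v} C] [MonoidalCategory C]

/-- The map of powers induced by an endomorphism of the repeated factor. -/
def zMap (X : C) {Z : C} (e : Z ⟶ Z) : ∀ n : ℕ, pw X Z n ⟶ pw X Z n
  | 0 => 𝟙 _
  | n + 1 => zMap X e n ⊗ₘ e

variable [SymmetricCategory C]

lemma zMap_exch (X : C) {Z : C} (e : Z ⟶ Z) (n : ℕ) :
    zMap X e (n + 1 + 1) ≫ (exch (pw X Z n) Z Z).hom =
      (exch (pw X Z n) Z Z).hom ≫ zMap X e (n + 1 + 1) := by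
  have h3 : zMap X e (n + 1 + 1) = ((zMap X e n ▷ Z) ▷ Z) ≫ ((pw X Z n ◁ e) ▷ Z) ≫
      ((pw X Z n ⊗ Z) ◁ e) := by
    rw [zMap, MonoidalCategory.tensorHom_def, zMap, MonoidalCategory.tensorHom_def,
      comp_whiskerRight, Category.assoc]
  rw [h3]
  simp only [Category.assoc]
  rw [exch_natural, ← Category.assoc ((pw X Z n ◁ e) ▷ Z) (exch (pw X Z n) Z Z).hom,
    exch_natural_left, Category.assoc, ← Category.assoc _ (exch (pw X Z n) Z Z).hom,
    exch_natural_first, Category.assoc, ← whisker_exchange]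

lemma zMap_mv (X : C) {Z : C} (e : Z ⟶ Z) (n : ℕ) : ∀ i : Fin (n + 1),
    zMap X e (n + 1) ≫ mv X Z n i = mv X Z n i ≫ zMap X e (n + 1) := by
  induction n with
  | zero =>
    intro i
    simp [mv]
  | succ n ih =>
    intro i
    refine Fin.lastCases ?_ (fun j => ?_) i
    · simp
    · rw [mv_castSucc]
      have h1 : zMap X e (n + 1 + 1) = (zMap X e (n + 1) ▷ Z) ≫ (pw X Z (n + 1) ◁ e) := by
        rw [zMap, MonoidalCategory.tensorHom_def]
      have h2 : zMap X e (n + 1 + 1) ≫ (mv X Z n j ▷ Z) = (mv X Z n j ▷ Z) ≫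
          zMap X e (n + 1 + 1) := by
        rw [h1, Category.assoc, whisker_exchange, ← Category.assoc, ← comp_whiskerRight, ih,
          comp_whiskerRight, Category.assoc]
      rw [← Category.assoc, h2, Category.assoc, zMap_exch, Category.assoc]

variable [Preadditive C]

lemma zMap_alt (X : C) {Z : C} (e : Z ⟶ Z) (n : ℕ) :
    zMap X e n ≫ alt X Z n = alt X Z n ≫ zMap X e n := by
  induction n with
  | zero => simp [alt]
  | succ n ih =>
    simp only [alt, Preadditive.comp_sum, Preadditive.sum_comp]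
    refine Finset.sum_congr rfl fun i _ => ?_
    rw [Preadditive.comp_zsmul, Preadditive.zsmul_comp, ← Category.assoc, zMap_mv,
      Category.assoc, Category.assoc]
    have h1 : zMap X e (n + 1) = (zMap X e n ▷ Z) ≫ (pw X Z n ◁ e) := by
      rw [zMap, MonoidalCategory.tensorHom_def]
    rw [h1, Category.assoc, whisker_exchange, ← Category.assoc (zMap X e n ▷ Z),
      ← comp_whiskerRight, ih, comp_whiskerRight, Category.assoc]

end ZMap

section

variable {C : Type u} [Category.{v} C] [Preadditive C] [HasZeroObject C] [HasShift C ℤ]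
  [∀ n : ℤ, (shiftFunctor C n).Additive] [Pretriangulated C] [MonoidalCategory C]
  [SymmetricCategory C] [TensorTriangulated C] [MonoidalPreadditive C]

lemma zMap_starN {Z : C} (δ : Z ⟶ (𝟙_ C)⟦(1 : ℤ)⟧) (e : Z ⟶ Z) (he : e ≫ δ = δ) {X : C}
    (u : X ⟶ 𝟙_ C) (n : ℕ) : zMap X e n ≫ starN δ u n = starN δ u n := by
  induction n with
  | zero => simp [zMap]
  | succ n ih =>
    have h1 : zMap X e (n + 1) = (pw X Z n ◁ e) ≫ (zMap X e n ▷ Z) := by
      rw [zMap, MonoidalCategory.tensorHom_def']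
    have h3 : starN δ u (n + 1) = star δ (starN δ u n) := rfl
    rw [h1, h3, Category.assoc, ← star_comp, ih, Pool.Agent.Y116.MT.star, ← Category.assoc,
      ← MonoidalCategory.whiskerLeft_comp, he]

variable {E : Type w} [Field E] (R : Realisation C E)

lemma shiftTensorIso_zero_aux (X Y : C) (j : ℤ) (hj : (0 : ℤ) + j = 0) :
    (rShift (X⟦(0 : ℤ)⟧) Y j ≪≫ (shiftFunctor C j).mapIso (lShift X Y 0) ≪≫
      (shiftFunctorCompIsoId C 0 j hj).app (X ⊗ Y)).hom =
    ((shiftFunctorZero C ℤ).hom.app X ⊗ₘ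
      (shiftFunctorZero' C j (by omega)).hom.app Y) := by
  obtain rfl : j = 0 := by omega
  have h0 : ∀ (A B : C), (rShift A B 0).hom = A ◁ (shiftFunctorZero C ℤ).hom.app B ≫
      (shiftFunctorZero C ℤ).inv.app (A ⊗ B) := by
    intro A B
    simp only [rShift, Iso.app_hom]
    rw [Functor.commShiftIso_zero]
    simp
  have h1 : (lShift X Y 0).hom = (shiftFunctorZero C ℤ).hom.app X ▷ Y ≫
      (shiftFunctorZero C ℤ).inv.app (X ⊗ Y) := by
    simp only [lShift, Iso.trans_hom, Functor.mapIso_hom]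
    rw [h0]
    have h2 := (shiftFunctorZero C ℤ).inv.naturality (β_ Y X).hom
    simp only [Functor.id_obj, Functor.id_map] at h2
    simp only [Category.assoc]
    rw [← h2, ← BraidedCategory.braiding_naturality_left_assoc]
    simp
  have h3 : (shiftFunctorZero' C (0 : ℤ) (by omega)).hom.app Y =
      (shiftFunctorZero C ℤ).hom.app Y := by
    simp [shiftFunctorZero']
  have h4 := (shiftFunctorZero C ℤ).hom.naturality ((shiftFunctorZero C ℤ).hom.app X ▷ Y ≫
      (shiftFunctorZero C ℤ).inv.app (X ⊗ Y))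
  simp only [Functor.id_obj, Functor.id_map] at h4
  have h5 : (shiftFunctorCompIsoId C (0 : ℤ) 0 hj).hom.app (X ⊗ Y) =
      ((shiftFunctorZero C ℤ).hom.app (X ⊗ Y))⟦(0 : ℤ)⟧' ≫
        (shiftFunctorZero C ℤ).hom.app (X ⊗ Y) := shiftFunctorCompIsoId_zero_zero_hom_app _ _
  simp only [Iso.trans_hom, Functor.mapIso_hom, Iso.app_hom]
  rw [h5, h3, h0, h1, MonoidalCategory.tensorHom_def']
  simp only [Category.assoc]
  congr 1
  rw [← cancel_epi ((shiftFunctorZero C ℤ).hom.app (X⟦(0 : ℤ)⟧ ⊗ Y))]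
  simp only [Iso.hom_inv_id_app_assoc]
  rw [← Functor.map_comp_assoc]
  simp only [Category.assoc, Iso.inv_hom_id_app, Functor.id_obj, Category.comp_id]
  have h6 := (shiftFunctorZero C ℤ).hom.naturality ((shiftFunctorZero C ℤ).hom.app X ▷ Y)
  simp

lemma shiftTensorIso_zero (X Y : C) : (shiftTensorIso X Y 0).hom =
    ((shiftFunctorZero C ℤ).hom.app X ⊗ₘ (shiftFunctorZero' C (-0 : ℤ) (by simp)).hom.app Y) :=
  shiftTensorIso_zero_aux X Y (-0) (by simp)

variable {E : Type w} [Field E] (R : Realisation C E)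

/-- The projection to a Künneth component. -/
lemma exists_proj (X Y : C) (i : ℤ) : ∃ p : R.H.obj (X ⊗ Y) ⟶
      (R.H.obj (X⟦i⟧) ⊗ R.H.obj (Y⟦-i⟧) : ModuleCat.{w} E),
    kc R X Y i ≫ p = 𝟙 _ ∧ ∀ j, j ≠ i → kc R X Y j ≫ p = 0 := by
  let e := LinearEquiv.ofBijective _ (R.kunneth X Y)
  have h1 : ∀ (j : ℤ) (x : (R.H.obj (X⟦j⟧) ⊗ R.H.obj (Y⟦-j⟧) : ModuleCat.{w} E)),
      e.symm ((kc R X Y j).hom x) = DirectSum.lof E ℤ
        (fun i : ℤ => (R.H.obj (X⟦i⟧) ⊗ R.H.obj (Y⟦-i⟧) : ModuleCat.{w} E)) j x := by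
    intro j x
    rw [LinearEquiv.symm_apply_eq]
    change _ = kunnethMap R.H X Y _
    rw [kunnethMap_eq, DirectSum.toModule_lof]
  refine ⟨ModuleCat.ofHom (DirectSum.component E ℤ
    (fun i : ℤ => (R.H.obj (X⟦i⟧) ⊗ R.H.obj (Y⟦-i⟧) : ModuleCat.{w} E)) i ∘ₗ
      e.symm.toLinearMap), ?_, ?_⟩
  · ext x
    have h3 := DirectSum.component.lof_self E
      (M := fun i : ℤ => (R.H.obj (X⟦i⟧) ⊗ R.H.obj (Y⟦-i⟧) : ModuleCat.{w} E)) i x
    rw [← h1 i x] at h3
    exact h3
  · intro j hj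
    ext x
    have h3 := DirectSum.component.of E
      (M := fun i : ℤ => (R.H.obj (X⟦i⟧) ⊗ R.H.obj (Y⟦-i⟧) : ModuleCat.{w} E)) i j x
    rw [dif_neg hj, ← h1 j x] at h3
    exact h3

/-- The realisation of `f` vanishes outside of degree zero. -/
def Conc {X Y : C} (f : X ⟶ Y) : Prop := ∀ i : ℤ, i ≠ 0 → R.H.map (f⟦i⟧') = 0

variable {R}

lemma map_add_zero {Y Y' : C} (g : Y ⟶ Y') {n m k : ℤ} (h : n + m = k)
    (hg : R.H.map (g⟦k⟧') = 0) : R.H.map ((g⟦n⟧')⟦m⟧') = 0 := by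
  rw [← cancel_epi (R.H.map ((shiftFunctorAdd' C n m k h).hom.app Y)), ← Functor.map_comp]
  have h1 : (shiftFunctorAdd' C n m k h).hom.app Y ≫ (g⟦n⟧')⟦m⟧' =
      g⟦k⟧' ≫ (shiftFunctorAdd' C n m k h).hom.app Y' :=
    ((shiftFunctorAdd' C n m k h).hom.naturality g).symm
  rw [h1, Functor.map_comp, hg, zero_comp, comp_zero]

lemma Conc.tensor {X X' Y Y' : C} {f : X ⟶ X'} {g : Y ⟶ Y'} (hf : Conc R f) (hg : Conc R g) :
    Conc R (f ⊗ₘ g) := by
  intro n hn
  have h1 : R.H.map (f ⊗ₘ (g⟦n⟧')) = 0 := by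
    apply kc_ext
    intro i
    rw [MonoidalCategory.tensorHom_def, Functor.map_comp, ← Category.assoc, ← kc_natural_left,
      Category.assoc, ← kc_natural_right]
    by_cases hi : i = 0
    · subst hi
      rw [map_add_zero (R := R) g (n := n) (m := -0) (k := n) (by simp) (hg n hn)]
      have h3 : R.H.obj (X'⟦(0 : ℤ)⟧) ◁
          (0 : R.H.obj (Y⟦n⟧⟦-(0 : ℤ)⟧) ⟶ R.H.obj (Y'⟦n⟧⟦-(0 : ℤ)⟧)) = 0 :=
        (tensorLeft _).map_zero _ _
      rw [h3, zero_comp, comp_zero]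
    · rw [hf i hi]
      have h3 : (0 : R.H.obj (X⟦i⟧) ⟶ R.H.obj (X'⟦i⟧)) ▷ R.H.obj (Y⟦n⟧⟦-i⟧) = 0 :=
        (tensorRight _).map_zero _ _
      rw [h3, zero_comp]
  have h2 : (rShift X Y n).hom ≫ (f ⊗ₘ g)⟦n⟧' = (f ⊗ₘ (g⟦n⟧')) ≫ (rShift X' Y' n).hom := by
    rw [MonoidalCategory.tensorHom_def, MonoidalCategory.tensorHom_def, Category.assoc,
      rShift_natural_right, ← Category.assoc, rShift_natural_left, Category.assoc,
      ← Functor.map_comp]
  rw [← cancel_epi (R.H.map (rShift X Y n).hom), ← Functor.map_comp, h2, Functor.map_comp, h1,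
    zero_comp, comp_zero]

/-- In degree zero a tensor product of morphisms concentrated in degree zero factors through the
tensor product of the realisations. -/
lemma Conc.factor {X X' Y Y' : C} {f : X ⟶ X'} {g : Y ⟶ Y'} (hf : Conc R f) :
    ∃ c : R.H.obj (X ⊗ Y) ⟶ (R.H.obj X ⊗ R.H.obj Y : ModuleCat.{w} E),
      R.H.map (f ⊗ₘ g) = c ≫ (R.H.map f ⊗ₘ R.H.map g) ≫ μ R.H X' Y' := by
  obtain ⟨p, hp, hp'⟩ := exists_proj R X Y 0
  let zX := (shiftFunctorZero C ℤ).hom.app X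
  let zY := (shiftFunctorZero' C (-0 : ℤ) (by simp)).hom.app Y
  refine ⟨p ≫ (R.H.map zX ⊗ₘ R.H.map zY), ?_⟩
  rw [← sub_eq_zero]
  apply kc_ext
  intro i
  rw [Preadditive.comp_sub, sub_eq_zero]
  have h0 : kc R X Y i ≫ R.H.map (f ⊗ₘ g) =
      (R.H.map (f⟦i⟧') ⊗ₘ R.H.map (g⟦-i⟧')) ≫ kc R X' Y' i := by
    rw [MonoidalCategory.tensorHom_def, Functor.map_comp, ← Category.assoc, ← kc_natural_left,
      Category.assoc, ← kc_natural_right, MonoidalCategory.tensorHom_def, Category.assoc]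
  by_cases hi : i = 0
  · subst hi
    rw [h0]
    simp only [Category.assoc]
    rw [reassoc_of% hp]
    have h1 : kc R X' Y' 0 = (R.H.map ((shiftFunctorZero C ℤ).hom.app X') ⊗ₘ
        R.H.map ((shiftFunctorZero' C (-0 : ℤ) (by simp)).hom.app Y')) ≫ μ R.H X' Y' := by
      rw [kc, shiftTensorIso_zero]
      exact (μ_natural R.H _ _).symm
    have hA : R.H.map (f⟦(0 : ℤ)⟧') ≫ R.H.map ((shiftFunctorZero C ℤ).hom.app X') =
        R.H.map zX ≫ R.H.map f := by
      rw [← Functor.map_comp, ← Functor.map_comp]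
      congr 1
      exact (shiftFunctorZero C ℤ).hom.naturality f
    have hB : R.H.map (g⟦-(0 : ℤ)⟧') ≫
        R.H.map ((shiftFunctorZero' C (-0 : ℤ) (by simp)).hom.app Y') =
        R.H.map zY ≫ R.H.map g := by
      rw [← Functor.map_comp, ← Functor.map_comp]
      congr 1
      exact (shiftFunctorZero' C (-0 : ℤ) (by simp)).hom.naturality g
    rw [h1, MonoidalCategory.tensorHom_comp_tensorHom_assoc,
      MonoidalCategory.tensorHom_comp_tensorHom_assoc, hA, hB]
  · rw [h0, hf i hi]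
    have h3 : ((0 : R.H.obj (X⟦i⟧) ⟶ R.H.obj (X'⟦i⟧)) ⊗ₘ R.H.map (g⟦-i⟧')) = 0 := by
      rw [MonoidalCategory.tensorHom_def]
      have h4 : (0 : R.H.obj (X⟦i⟧) ⟶ R.H.obj (X'⟦i⟧)) ▷ R.H.obj (Y⟦-i⟧) = 0 :=
        (tensorRight _).map_zero _ _
      rw [h4, zero_comp]
    have h5 : kc R X Y i ≫ (p ≫ (R.H.map zX ⊗ₘ R.H.map zY)) ≫
        (R.H.map f ⊗ₘ R.H.map g) ≫ μ R.H X' Y' = 0 := by
      simp only [Category.assoc]
      rw [reassoc_of% (hp' i hi), zero_comp]
    rw [h3, zero_comp, h5]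

variable [RightRigidCategory C]

lemma conc_zMap {Z : C} {e : Z ⟶ Z} (he : Conc R e) (n : ℕ) : Conc R (zMap (𝟙_ C) e n) := by
  induction n with
  | zero =>
    intro i hi
    exact (deg_unit (R := R) i hi).eq_of_src _ _
  | succ n ih => exact ih.tensor he

/-- In degree zero the power of `e` factors through the power of the realisation. -/
lemma zMap_factor {Z : C} {e : Z ⟶ Z} (he : Conc R e) (n : ℕ) :
    ∃ g : R.H.obj (pw (𝟙_ C) Z n) ⟶ pw (R.H.obj (𝟙_ C)) (R.H.obj Z) n,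
      R.H.map (zMap (𝟙_ C) e n) = g ≫ kap R.H (𝟙_ C) Z n := by
  induction n with
  | zero => exact ⟨𝟙 _, by simp [zMap, kap]⟩
  | succ n ih =>
    obtain ⟨g, hg⟩ := ih
    obtain ⟨c, hc⟩ := (conc_zMap he n).factor (g := e)
    refine ⟨c ≫ (g ⊗ₘ R.H.map e), ?_⟩
    rw [zMap, hc, hg, kap, Category.assoc, ← MonoidalCategory.tensorHom_comp_whiskerRight_assoc]

/-- The power of an endomorphism concentrated in degree zero, followed by the antisymmetrizer, is
killed by the realisation. -/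
theorem killed_zMap_alt {Z : C} {e : Z ⟶ Z} (he : Conc R e) {n : ℕ}
    (hn : Module.finrank E (R.H.obj Z) < n) : Killed R (zMap (𝟙_ C) e n ≫ alt (𝟙_ C) Z n) := by
  intro i
  by_cases hi : i = 0
  · subst hi
    have h1 : R.H.map (zMap (𝟙_ C) e n ≫ alt (𝟙_ C) Z n) = 0 := by
      obtain ⟨g, hg⟩ := zMap_factor he n
      rw [Functor.map_comp, hg, Category.assoc, ← alt_lax, alt_vec_zero _ _ _ hn, zero_comp,
        comp_zero]
    rw [← cancel_mono (R.H.map ((shiftFunctorZero C ℤ).hom.app _)), ← Functor.map_comp]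
    have h2 := (shiftFunctorZero C ℤ).hom.naturality (zMap (𝟙_ C) e n ≫ alt (𝟙_ C) Z n)
    rw [h2, Functor.map_comp]
    simp only [Functor.id_map]
    rw [h1, comp_zero, zero_comp]
  · rw [Functor.map_comp, Functor.map_comp, conc_zMap he n i hi, zero_comp]

end

end Pool.Agent.N209.CD
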