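import Pool.Agent.N209.CD.Wt

/-!
# Conservativity from pure objects
-/

set_option autoImplicit false
set_option linter.unusedSectionVars false
set_option linter.unusedSimpArgs false
set_option backward.isDefEq.respectTransparency false
set_option backward.defeqAttrib.useBackward true

open CategoryTheory Limits MonoidalCategory Pretriangulated Triangulated ObjectProperty

namespace Pool.Agent.N209.CD

open Pool.Agent.Y116.MT Pool.Agent.N209.MT Pool.Agent.V1178.MT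

universe v u w

section

variable {C : Type u} [Category.{v} C] [Preadditive C] [HasZeroObject C] [HasShift C ℤ]
  [∀ n : ℤ, (shiftFunctor C n).Additive] [Pretriangulated C] [MonoidalCategory C]
  [SymmetricCategory C] [TensorTriangulated C]
  {E : Type w} [Field E]

/-- The morphisms between objects of `W` are von Neumann regular modulo homological
equivalence. -/
def RegularOn (R : Realisation C E) (W : ObjectProperty C) : Prop :=
  ∀ M N : C, W M → W N → ∀ f : M ⟶ N, ∃ g : N ⟶ M, Killed R (f ≫ g ≫ f - f)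

variable {R : Realisation C E} {W : ObjectProperty C}

/-- A morphism between objects of `W` which is injective on cohomology is split. -/
lemma split_of_mono (hc : ConservativeOn R W) (hr : RegularOn R W) {M N : C} (hM : W M)
    (hN : W N) (f : M ⟶ N) (hf : ∀ i : ℤ, Mono (R.H.map (f⟦i⟧'))) :
    ∃ r : N ⟶ M, f ≫ r = 𝟙 M := by
  obtain ⟨g, hg⟩ := hr M N hM hN f
  have h1 : ∀ i : ℤ, IsIso (R.H.map ((f ≫ g)⟦i⟧')) := by
    intro i
    have h2 := hf i
    have h3 := hg i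
    rw [Functor.map_sub, Functor.map_sub, sub_eq_zero] at h3
    have h4 : R.H.map ((f ≫ g)⟦i⟧') = 𝟙 _ := by
      rw [← cancel_mono (R.H.map (f⟦i⟧')), Category.id_comp, ← Functor.map_comp,
        ← Functor.map_comp, Category.assoc, h3]
    rw [h4]
    infer_instance
  have h2 := hc M M hM hM _ h1
  exact ⟨g ≫ inv (f ≫ g), by rw [← Category.assoc, IsIso.hom_inv_id]⟩

lemma map_shift_shift (F : C ⥤ ModuleCat.{w} E) {X Y : C} (f : X ⟶ Y) (a i : ℤ) :
    F.map ((f⟦a⟧')⟦i⟧') = F.map ((shiftFunctorAdd' C a i (a + i) rfl).inv.app X) ≫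
      F.map (f⟦a + i⟧') ≫ F.map ((shiftFunctorAdd' C a i (a + i) rfl).hom.app Y) := by
  rw [← Functor.map_comp, ← Functor.map_comp]
  congr 1
  have h1 := (shiftFunctorAdd' C a i (a + i) rfl).hom.naturality f
  dsimp at h1
  rw [h1, ← Category.assoc]
  have h2 : (shiftFunctorAdd' C a i (a + i) rfl).inv.app X ≫
      (shiftFunctorAdd' C a i (a + i) rfl).hom.app X = 𝟙 _ :=
    (shiftFunctorAdd' C a i (a + i) rfl).inv_hom_id_app X
  rw [h2]
  exact (Category.id_comp _).symm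

lemma exact_shift {X Y Z : C} {f : X ⟶ Y} {g : Y ⟶ Z} {h : Z ⟶ X⟦(1 : ℤ)⟧}
    (hT : Triangle.mk f g h ∈ distTriang C) (a i : ℤ) (y : R.H.obj (Y⟦a⟧⟦i⟧))
    (hy : (R.H.map ((g⟦a⟧')⟦i⟧')).hom y = 0) : ∃ x, (R.H.map ((f⟦a⟧')⟦i⟧')).hom x = y := by
  let eX := R.H.mapIso ((shiftFunctorAdd' C a i (a + i) rfl).app X)
  let eY := R.H.mapIso ((shiftFunctorAdd' C a i (a + i) rfl).app Y)
  let eZ := R.H.mapIso ((shiftFunctorAdd' C a i (a + i) rfl).app Z)
  have hf : R.H.map ((f⟦a⟧')⟦i⟧') = eX.inv ≫ R.H.map (f⟦a + i⟧') ≫ eY.hom :=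
    map_shift_shift R.H f a i
  have hg : R.H.map ((g⟦a⟧')⟦i⟧') = eY.inv ≫ R.H.map (g⟦a + i⟧') ≫ eZ.hom :=
    map_shift_shift R.H g a i
  obtain ⟨x, hx⟩ := exact_elt hT (a + i) (eY.inv.hom y) (by
    have h1 : eZ.inv.hom ((R.H.map ((g⟦a⟧')⟦i⟧')).hom y) = 0 := by
      rw [hy, map_zero]
    rw [hg] at h1
    have h2 : (eY.inv ≫ R.H.map (g⟦a + i⟧') ≫ eZ.hom) ≫ eZ.inv =
        eY.inv ≫ R.H.map (g⟦a + i⟧') := by simp
    have h3 := ConcreteCategory.congr_hom h2 y
    exact h3.symm.trans h1)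
  refine ⟨eX.hom.hom x, ?_⟩
  rw [hf]
  have h2 : eX.hom ≫ (eX.inv ≫ R.H.map (f⟦a + i⟧') ≫ eY.hom) =
      R.H.map (f⟦a + i⟧') ≫ eY.hom := by simp
  have h3 := ConcreteCategory.congr_hom h2 x
  refine h3.trans ?_
  have h4 : eY.hom.hom (eY.inv.hom y) = y := ConcreteCategory.congr_hom eY.inv_hom_id y
  rw [← h4, ← hx]
  rfl

lemma mono_shift {X Y : C} (f : X ⟶ Y) (h : ∀ i : ℤ, Mono (R.H.map (f⟦i⟧'))) (a i : ℤ) :
    Mono (R.H.map ((f⟦a⟧')⟦i⟧')) := by
  have := h (a + i)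
  rw [map_shift_shift]
  infer_instance

variable [IsTriangulated C] (hN : Neg W) (w : Weights R W) (hc : ConservativeOn R W)
  (hr : RegularOn R W)

include hN w hc hr

lemma step {m : ℤ} {X : C} (hX : ec (degs W (m ≤ ·)) X)
    (h0 : ∀ i : ℤ, IsZero (R.H.obj (X⟦i⟧))) : ec (degs W (m + 1 ≤ ·)) X := by
  have hiso := hN.iso
  obtain ⟨X', V, f, g, h, hT, hX', hV⟩ := hN.sort m _ hX
  have hVm := hN.ec_single m hV
  obtain ⟨X'', V', f', g', h', hT', hX'', hV'⟩ := hN.sort (m + 1) _ hX'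
  have hVm' := hN.ec_single (m + 1) hV'
  have hlow : w.Low (m + 1 + 1) X'' := w.low_ec hiso hX''
  let d : V ⟶ V'⟦(1 : ℤ)⟧ := h ≫ g'⟦(1 : ℤ)⟧'
  -- injectivity on cohomology
  have hinj : ∀ (i : ℤ) (x : R.H.obj (V⟦i⟧)), (R.H.map (d⟦i⟧')).hom x = 0 → x = 0 := by
    intro i x hx
    have hy : (R.H.map ((g'⟦(1 : ℤ)⟧')⟦i⟧')).hom ((R.H.map (h⟦i⟧')).hom x) = 0 := by
      rw [← hx]
      simp only [d, Functor.map_comp]
      rfl
    obtain ⟨z, hz⟩ := exact_shift (R := R) hT' 1 i _ hy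
    obtain ⟨Q, hQ, hQ'⟩ := hlow (i + 1)
    obtain ⟨P, hP, hP'⟩ := w.exists_pure _ hVm (i - m)
    have hPV : w.ev (V⟦i⟧) P = 0 :=
      w.ev_iso ((shiftFunctorAdd' C m (i - m) i (by omega)).app V).symm hP'
    have hQX : w.ev (X''⟦(1 : ℤ)⟧⟦i⟧) Q = 0 :=
      w.ev_iso ((shiftFunctorAdd' C 1 i (i + 1) (by omega)).app X'') hQ
    obtain ⟨a, b, hab⟩ := hQ' (i - m) P (by omega) hP
    have h1 : (R.H.map (h⟦i⟧')).hom x = 0 := by
      have h2 : w.ev _ Q ((R.H.map (h⟦i⟧')).hom x) = 0 := by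
        rw [← hz, w.ev_natural, hQX]
        simp
      have h3 : w.ev _ P ((R.H.map (h⟦i⟧')).hom x) = 0 := by
        rw [w.ev_natural, hPV]
        simp
      have h4 : w.ev _ (a * Q + b * P) ((R.H.map (h⟦i⟧')).hom x) = 0 := by
        have h5 : w.ev (X'⟦(1 : ℤ)⟧⟦i⟧) (a * Q + b * P) = w.ev _ (a * Q) + w.ev _ (b * P) := by
          simp [Weights.ev]
        rw [h5, LinearMap.add_apply, w.ev_mul, w.ev_mul, h2, h3, map_zero, map_zero, add_zero]
      rw [hab] at h4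
      simpa [Weights.ev] using h4
    obtain ⟨y, hy⟩ := exact_elt (R := R) (rotD hT) i x h1
    have h2 : y = 0 := by
      have := ModuleCat.subsingleton_of_isZero (h0 i)
      exact Subsingleton.elim _ _
    rw [← hy, h2, map_zero]
  -- the splitting
  have hmono : ∀ i : ℤ, Mono (R.H.map ((d⟦m⟧')⟦i⟧')) := by
    intro i
    refine mono_shift d (fun j => ?_) m i
    rw [ModuleCat.mono_iff_injective]
    exact (injective_iff_map_eq_zero _).2 (hinj j)
  obtain ⟨r, hr'⟩ := split_of_mono hc hr hVm (hN.shift_mem hVm' 1 m (by omega)) (d⟦m⟧') hmono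
  obtain ⟨ρ, rfl⟩ := (shiftFunctor C m).map_surjective r
  have hdρ : d ≫ ρ = 𝟙 V := by
    apply (shiftFunctor C m).map_injective
    rw [Functor.map_comp, hr', CategoryTheory.Functor.map_id]
  -- the octahedron
  obtain ⟨Q, v, u, hT13⟩ := distinguished_cocone_triangle (f' ≫ f)
  obtain ⟨O⟩ := IsTriangulated.octahedron_axiom rfl hT' hT hT13
  have hO := O.mem
  have hm3 : O.m₃ = 0 := by
    have h1 : O.m₃ ≫ d = 0 := comp23 hO
    calc O.m₃ = (O.m₃ ≫ d) ≫ ρ := by rw [Category.assoc, hdρ, Category.comp_id]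
      _ = 0 := by rw [h1, zero_comp]
  obtain ⟨s, hs⟩ := split2 hO hm3
  have hQ : W (Q⟦m + 1⟧) := by
    have := hN.retract
    exact W.prop_of_retract ((⟨s, O.m₁, hs⟩ : Retract Q V').map (shiftFunctor C (m + 1))) hVm'
  exact ec_ext _ hT13 (ec_mono (degs_mono fun k (hk : m + 1 + 1 ≤ k) => by omega) _ hX'')
    (le_ec _ _ ⟨m + 1, le_rfl, hQ⟩)

lemma steps {m : ℤ} {X : C} (hX : ec (degs W (m ≤ ·)) X)
    (h0 : ∀ i : ℤ, IsZero (R.H.obj (X⟦i⟧))) (n : ℕ) : ec (degs W (m + n ≤ ·)) X := by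
  induction n with
  | zero => simpa using hX
  | succ n ih =>
    have h1 := step hN w hc hr ih h0
    have h2 : m + (n : ℤ) + 1 = m + ((n + 1 : ℕ) : ℤ) := by push_cast; ring
    rwa [h2] at h1

lemma zero_of_ec {X : C} (hX : ec (degs W (fun _ => True)) X)
    (h0 : ∀ i : ℤ, IsZero (R.H.obj (X⟦i⟧))) : IsZero X := by
  obtain ⟨m, h1, h2⟩ := ec_bounded W hX
  have h3 := steps hN w hc hr h2 h0 (2 * m + 1).toNat
  rw [IsZero.iff_id_eq_zero]
  refine hN.ec_hom_zero (S := (-m + ((2 * m + 1).toNat : ℤ) ≤ ·)) (S' := (· ≤ m)) ?_ h3 h1 _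
  intro a b (ha : -m + ((2 * m + 1).toNat : ℤ) ≤ a) (hb : b ≤ m)
  omega

/-- **Conservativity from pure objects.** If the realisation is conservative on the class `W` of
pure objects and the category `W` is semisimple modulo homological equivalence then the
realisation is conservative. -/
theorem conservative_of_weights (hg : W.IsClassicalTriangulatedGenerator) : Conservative R := by
  intro X hX
  obtain ⟨Y, hY, ⟨r⟩⟩ := hN.retract_ec hg X
  let e : Y ⟶ Y := r.r ≫ r.i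
  have he : ∀ i : ℤ, R.H.map (e⟦i⟧') = 0 := by
    intro i
    simp only [e, Functor.map_comp]
    rw [(hX i).eq_of_tgt (R.H.map (r.r⟦i⟧')) 0, zero_comp]
  have hee : e ≫ e = e := by
    simp only [e, Category.assoc]
    rw [r.retract_assoc]
  obtain ⟨Z, g, h, hT⟩ := distinguished_cocone_triangle (𝟙 Y - e)
  have hZ : ec (degs W (fun _ => True)) Z := by
    exact ec_ext _ (rotD hT) hY (hN.ec_shift hY 1)
  have h1 : ∀ i : ℤ, IsIso (R.H.map ((𝟙 Y - e)⟦i⟧')) := by
    intro i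
    rw [Functor.map_sub, Functor.map_sub, he i, sub_zero, CategoryTheory.Functor.map_id,
      CategoryTheory.Functor.map_id]
    infer_instance
  have h2 : ∀ i : ℤ, IsZero (R.H.obj (Z⟦i⟧)) := by
    intro i
    let _ := Functor.ShiftSequence.tautological R.H ℤ
    have hm : Mono ((R.H.shift (i + 1)).map (𝟙 Y - e)) := by
      have := h1 (i + 1)
      exact inferInstanceAs (Mono (R.H.map ((𝟙 Y - e)⟦i + 1⟧')))
    have he : Epi ((R.H.shift i).map (𝟙 Y - e)) := by
      have := h1 i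
      exact inferInstanceAs (Epi (R.H.map ((𝟙 Y - e)⟦i⟧')))
    have h4 : R.H.homologySequenceδ (Triangle.mk (𝟙 Y - e) g h) i (i + 1) rfl = 0 :=
      (R.H.homologySequence_mono_shift_map_mor₁_iff _ hT i (i + 1) rfl).1 hm
    have h5 : (R.H.shift i).map g = 0 :=
      (R.H.homologySequence_epi_shift_map_mor₁_iff _ hT i).1 he
    have h6 := R.H.homologySequence_exact₃ _ hT i (i + 1) rfl
    have h7 : Mono (R.H.homologySequenceδ (Triangle.mk (𝟙 Y - e) g h) i (i + 1) rfl) :=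
      h6.mono_g h5
    exact IsZero.of_mono_eq_zero _ h4
  have h3 : IsIso (𝟙 Y - e) := (Triangle.isZero₃_iff_isIso₁ _ hT).1
    (zero_of_ec hN w hc hr hZ h2)
  have h4 : e = 0 := by
    rw [← cancel_mono (𝟙 Y - e), zero_comp, Preadditive.comp_sub, Category.comp_id, hee, sub_self]
  rw [IsZero.iff_id_eq_zero, ← r.retract]
  have h5 : r.i ≫ r.r = (r.i ≫ e) ≫ r.r := by
    simp [e]
  rw [h5, h4, comp_zero, zero_comp]

end

end Pool.Agent.N209.CD
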