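import Pool.Agent.N209.CD.TraceFun

/-!
# Semisimplicity modulo homological equivalence
-/

set_option autoImplicit false
set_option linter.unusedSectionVars false
set_option linter.unusedSimpArgs false
set_option backward.isDefEq.respectTransparency false
set_option backward.defeqAttrib.useBackward true

open CategoryTheory Limits MonoidalCategory Pretriangulated Triangulated TensorProduct

namespace Pool.Agent.N209.CD

open Pool.Agent.Y116.MT Pool.Agent.N209.MT

universe v u w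

open Functor.LaxMonoidal

section

variable {C : Type u} [Category.{v} C] [Preadditive C] [HasZeroObject C] [HasShift C ℤ]
  [∀ n : ℤ, (shiftFunctor C n).Additive] [Pretriangulated C] [MonoidalCategory C]
  [SymmetricCategory C] [TensorTriangulated C] [MonoidalPreadditive C] [RightRigidCategory C]
  {E : Type w} [Field E] {R : Realisation C E}

lemma tr_add {X : C} (a b : X ⟶ X) : tr (a + b) = tr a + tr b := by
  simp only [tr]
  rw [MonoidalPreadditive.add_whiskerRight, Preadditive.add_comp, Preadditive.comp_add]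

lemma killed_of_unit {X : C} {s : 𝟙_ C ⟶ X} (h : R.H.map s = 0) : Killed R s := by
  intro i
  by_cases hi : i = 0
  · subst hi
    rw [← cancel_mono (R.H.map ((shiftFunctorZero C ℤ).hom.app _)), ← Functor.map_comp]
    have h2 := (shiftFunctorZero C ℤ).hom.naturality s
    rw [h2, Functor.map_comp]
    simp only [Functor.id_map]
    rw [h, comp_zero, zero_comp]
  · exact (deg_unit (R := R) i hi).eq_of_src _ _

lemma killed_of_nm {M N : C} {f : M ⟶ N} (h : R.H.map (nm f) = 0) : Killed R f := by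
  rw [nm_recover f]
  exact (((killed_of_unit h).whiskerRight M).comp_right _).comp_left _

variable [Linear ℚ C]

/-- Endomorphisms of an object `X` are von Neumann regular modulo homological equivalence, if
homological and numerical equivalence coincide for `X ⊗ Xᘁ`. -/
theorem regular_endo (hQ : ∀ e : 𝟙_ C ⟶ 𝟙_ C, ∃ q : ℚ, e = q • 𝟙 _) {X : C}
    (hD : ∀ s : 𝟙_ C ⟶ X ⊗ Xᘁ, R.H.map s ≠ 0 → ∃ r : X ⊗ Xᘁ ⟶ 𝟙_ C, s ≫ r ≠ 0) (a : X ⟶ X) :
    ∃ b : X ⟶ X, Killed R (a ≫ b ≫ a - a) := by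
  let _ : Algebra ℚ E := (ratHom R).toAlgebra
  have hinj : Function.Injective (algebraMap ℚ E) := (algebraMap ℚ E).injective
  have halg : ∀ q : ℚ, algebraMap ℚ E q = sc R (q • 𝟙 (𝟙_ C)) := fun q => rfl
  obtain ⟨N, hN⟩ := R.bounded X
  let I : Finset ℤ := Finset.Icc (-(N : ℤ)) N
  have hI : ∀ i, i ∉ I → IsZero (R.H.obj (X⟦i⟧)) := by
    intro i hi
    apply hN
    simp only [I, Finset.mem_Icc, not_and_or, not_le] at hi
    omega
  choose τ₀ hτ₀ using fun a : X ⟶ X => hQ (tr a)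
  have hτ₁ : ∀ a : X ⟶ X, algebraMap ℚ E (τ₀ a) = sc R (tr a) := by
    intro a
    rw [halg, ← hτ₀]
  let τ : End X →+ ℚ := AddMonoidHom.mk' τ₀ (by
    intro a b
    apply hinj
    rw [map_add, hτ₁, hτ₁, hτ₁]
    rw [← sc_add, ← tr_add])
  let T : Module.End E (∀ i : I, R.H.obj (X⟦(i : ℤ)⟧)) →ₗ[E] E :=
    ∑ i : I, fnl (pp R X i).hom (uu R X i) ∘ₗ cmp R X I i
  have hT : ∀ a : End X, T (repr R X I a) = sc R (tr (a : X ⟶ X)) := by
    intro a
    rw [sc_tr R I hI, ← Finset.sum_coe_sort]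
    simp only [T, LinearMap.sum_apply, LinearMap.comp_apply, cmp_repr]
  have hfin : Module.Finite E (∀ i : I, R.H.obj (X⟦(i : ℤ)⟧)) := by
    have h1 : ∀ i : I, Module.Finite E (R.H.obj (X⟦(i : ℤ)⟧)) := fun i => R.finite _
    infer_instance
  obtain ⟨b, hb⟩ := regular_mod (repr R X I) T τ (fun a => by rw [hT]; exact (hτ₁ a).symm)
    (by
      intro a ha
      simp only [T, LinearMap.sum_apply, LinearMap.comp_apply, cmp_repr]
      refine Finset.sum_eq_zero fun i _ => ?_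
      have := R.finite (X⟦(i : ℤ)⟧)
      refine fnl_nilpotent _ _ _ (R.H.map ((aᘁ)⟦-(i : ℤ)⟧')).hom ?_ ?_ (nilpotent_comp R I i a ha)
      · exact congrArg ModuleCat.Hom.hom (pp_adjoint R i (X := X) a)
      · exact uu_adjoint R i (X := X) a)
    (by
      intro a ha
      have h1 : R.H.map (nm (a : X ⟶ X)) ≠ 0 := by
        intro h
        apply ha
        have h2 := killed_of_nm h
        refine LinearMap.ext fun x => funext fun i => ?_
        change (R.H.map ((a : X ⟶ X)⟦(i : ℤ)⟧')).hom (x i) = 0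
        rw [h2 i]
        rfl
      obtain ⟨r, hr⟩ := hD _ h1
      obtain ⟨b, hb⟩ := exists_tr r
      refine ⟨b, ?_⟩
      intro h
      apply hr
      rw [hb, tr_cyclic]
      have h3 : τ₀ ((b : X ⟶ X) ≫ a) = 0 := h
      rw [hτ₀ (b ≫ a), h3, zero_smul]) (a : End X)
  refine ⟨b, ?_⟩
  intro i
  by_cases hi : i ∈ I
  · rw [Functor.map_sub, Functor.map_sub, sub_eq_zero]
    ext x
    have h1 := congrArg (cmp R X I ⟨i, hi⟩) hb
    rw [cmp_repr, cmp_repr] at h1
    exact LinearMap.congr_fun h1 x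
  · have h1 := hI i hi
    exact h1.eq_of_src _ _

/-- Morphisms between objects of a class are von Neumann regular modulo homological equivalence. -/
theorem regular_hom (hQ : ∀ e : 𝟙_ C ⟶ 𝟙_ C, ∃ q : ℚ, e = q • 𝟙 _) {M N : C}
    (hD : ∀ s : 𝟙_ C ⟶ (M ⊞ N) ⊗ (M ⊞ N)ᘁ, R.H.map s ≠ 0 →
      ∃ r : (M ⊞ N) ⊗ (M ⊞ N)ᘁ ⟶ 𝟙_ C, s ≫ r ≠ 0) (f : M ⟶ N) :
    ∃ g : N ⟶ M, Killed R (f ≫ g ≫ f - f) := by
  obtain ⟨b, hb⟩ := regular_endo hQ hD (biprod.fst ≫ f ≫ biprod.inr)
  refine ⟨biprod.inr ≫ b ≫ biprod.fst, ?_⟩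
  have h1 : f ≫ (biprod.inr ≫ b ≫ biprod.fst) ≫ f - f =
      (biprod.inl : M ⟶ M ⊞ N) ≫ (((biprod.fst ≫ f ≫ biprod.inr) ≫ b ≫
        (biprod.fst ≫ f ≫ biprod.inr) - (biprod.fst ≫ f ≫ biprod.inr)) ≫
          (biprod.snd : M ⊞ N ⟶ N)) := by
    simp [Preadditive.sub_comp, Preadditive.comp_sub]
  rw [h1]
  exact (hb.comp_right _).comp_left _

end

end Pool.Agent.N209.CD
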