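import Mathlib

/-!
# Von Neumann regularity modulo the kernel of a representation
-/

set_option autoImplicit false
set_option linter.unusedSectionVars false

namespace Pool.Agent.N209.CD

section

variable {A : Type*} [Ring A] [Algebra ℚ A] {E : Type*} [Field E] [Algebra ℚ E]
  {M : Type*} [AddCommGroup M] [Module E M] [Module.Finite E M]
  (ρ : A →+* Module.End E M) (T : Module.End E M →ₗ[E] E) (τ : A →ₗ[ℚ] ℚ)
  (hτ : ∀ a, T (ρ a) = algebraMap ℚ E (τ a))
  (hnd : ∀ a, a ≠ 0 → ∃ b, τ (a * b) ≠ 0)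

include hτ hnd

lemma finite_of_functional : Module.Finite ℚ A := by
  classical
  obtain ⟨s, hs, hspan⟩ := (Submodule.fg_span_iff_fg_span_finset_subset
    (R := E) (Set.range ρ)).1 (IsNoetherian.noetherian _)
  choose g hg using fun x : s => hs x.2
  let f : A →ₗ[ℚ] (s → ℚ) := LinearMap.pi fun x => τ ∘ₗ LinearMap.mulRight ℚ (g x)
  have hf : Function.Injective f := by
    rw [injective_iff_map_eq_zero]
    intro a ha
    by_contra hne
    obtain ⟨b, hb⟩ := hnd a hne
    apply hb
    let T' : Module.End E M →ₗ[E] E := T ∘ₗ LinearMap.mulLeft E (ρ a)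
    have h1 : ρ b ∈ Submodule.span E (Set.range ρ) := Submodule.subset_span ⟨b, rfl⟩
    rw [hspan] at h1
    have h2 : Submodule.span E (s : Set (Module.End E M)) ≤ LinearMap.ker T' := by
      rw [Submodule.span_le]
      intro x hx
      have h3 := congrFun ha ⟨x, hx⟩
      have h4 : τ (a * g ⟨x, hx⟩) = 0 := h3
      have h5 : ρ (g ⟨x, hx⟩) = x := hg ⟨x, hx⟩
      have h6 := hτ (a * g ⟨x, hx⟩)
      rw [h4, map_zero, map_mul, h5] at h6
      exact h6
    have h3 : T' (ρ b) = 0 := h2 h1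
    have h4 := hτ (a * b)
    rw [map_mul] at h4
    have h5 : algebraMap ℚ E (τ (a * b)) = 0 := h4.symm.trans h3
    exact (map_eq_zero _).1 h5
  exact Module.Finite.of_injective f hf

theorem regular_of_functional (hnil : ∀ a, IsNilpotent a → T (ρ a) = 0) (a : A) :
    ∃ b, a * b * a = a := by
  have h1 : Module.Finite ℚ A := finite_of_functional ρ T τ hτ hnd
  have h2 : IsArtinianRing A := IsArtinianRing.of_finite ℚ A
  have h3 : Ring.jacobson A = ⊥ := by
    rw [eq_bot_iff]
    intro x hx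
    rw [Submodule.mem_bot]
    by_contra hne
    obtain ⟨b, hb⟩ := hnd x hne
    apply hb
    have h4 : x * b ∈ Ring.jacobson A := Ideal.mul_mem_right _ _ hx
    obtain ⟨n, hn⟩ : IsNilpotent (Ring.jacobson A) := IsSemiprimaryRing.isNilpotent
    have h5 : (x * b) ^ n = 0 := by
      have := Ideal.pow_mem_pow h4 n
      rwa [hn] at this
    have h7 := hnil (x * b) ⟨n, h5⟩
    rw [hτ] at h7
    exact (map_eq_zero _).1 h7
  have h4 : IsSemisimpleRing A := IsArtinianRing.isSemisimpleRing_iff_jacobson.2 h3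
  obtain ⟨N, hN⟩ := exists_isCompl (Submodule.span A ({a} : Set A))
  have h5 : (1 : A) ∈ Submodule.span A ({a} : Set A) ⊔ N := by
    rw [hN.sup_eq_top]
    trivial
  obtain ⟨x, hx, y, hy, hxy⟩ := Submodule.mem_sup.1 h5
  obtain ⟨b, rfl⟩ := Submodule.mem_span_singleton.1 hx
  refine ⟨b, ?_⟩
  have h6 : a * y ∈ N := N.smul_mem a hy
  have h7 : a * y = a - a * b * a := by
    have : y = 1 - b * a := by rw [← hxy]; simp
    rw [this, mul_sub, mul_one, mul_assoc]
  have h8 : a * y ∈ Submodule.span A ({a} : Set A) := by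
    rw [h7]
    exact Submodule.sub_mem _ (Submodule.mem_span_singleton_self a)
      (Submodule.mem_span_singleton.2 ⟨a * b, rfl⟩)
  have h9 : a * y = 0 := by
    have := hN.disjoint.le_bot ⟨h8, h6⟩
    simpa using this
  rw [h7, sub_eq_zero] at h9
  exact h9.symm

end

section

variable {A : Type*} [Ring A] [Algebra ℚ A] {E : Type*} [Field E] [Algebra ℚ E]
  {M : Type*} [AddCommGroup M] [Module E M] [Module.Finite E M]

/-- Regularity modulo the kernel of a representation, if there is a functional which is rational on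
`A`, vanishes on nilpotent elements and detects the elements outside of the kernel. -/
theorem regular_mod (ρ : A →+* Module.End E M) (T : Module.End E M →ₗ[E] E) (τ : A →+ ℚ)
    (hτ : ∀ a, T (ρ a) = algebraMap ℚ E (τ a)) (hnil : ∀ a, IsNilpotent (ρ a) → T (ρ a) = 0)
    (hnd : ∀ a, ρ a ≠ 0 → ∃ b, τ (a * b) ≠ 0) (a : A) : ∃ b, ρ (a * b * a) = ρ a := by
  let B := A ⧸ RingHom.ker ρ
  have hinj : Function.Injective (algebraMap ℚ E) := (algebraMap ℚ E).injective
  have hk : ∀ x y : A, (Ideal.Quotient.mk (RingHom.ker ρ) x : B) = Ideal.Quotient.mk _ y →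
      τ x = τ y := by
    intro x y h
    rw [Ideal.Quotient.eq, RingHom.mem_ker, map_sub, sub_eq_zero] at h
    apply hinj
    rw [← hτ, ← hτ, h]
  have hsurj : Function.Surjective (Ideal.Quotient.mk (RingHom.ker ρ)) := Ideal.Quotient.mk_surjective
  choose σ hσ using hsurj
  let τ' : B →+ ℚ := AddMonoidHom.mk' (fun b => τ (σ b)) (by
    intro x y
    rw [← map_add]
    apply hk
    rw [map_add, hσ, hσ, hσ])
  have hτ' : ∀ x : A, τ' (Ideal.Quotient.mk _ x) = τ x := fun x => hk _ _ (hσ _)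
  let ρ' : B →+* Module.End E M := RingHom.kerLift ρ
  have hρ' : ∀ x : A, ρ' (Ideal.Quotient.mk _ x) = ρ x := fun x => RingHom.kerLift_mk ρ x
  obtain ⟨b, hb⟩ := regular_of_functional (A := B) ρ' T τ'.toRatLinearMap (by
    intro x
    obtain ⟨x, rfl⟩ := Ideal.Quotient.mk_surjective x
    rw [hρ', hτ]
    congr 1
    exact (hτ' x).symm) (by
    intro x hx
    obtain ⟨x, rfl⟩ := Ideal.Quotient.mk_surjective x
    obtain ⟨b, hb⟩ := hnd x (by
      intro h
      apply hx
      rw [Ideal.Quotient.eq_zero_iff_mem, RingHom.mem_ker, h])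
    refine ⟨Ideal.Quotient.mk _ b, ?_⟩
    rw [← map_mul]
    change τ' _ ≠ 0
    rw [hτ']
    exact hb) (by
    intro x hx
    have h1 : IsNilpotent (ρ' x) := hx.map ρ'
    obtain ⟨x, rfl⟩ := Ideal.Quotient.mk_surjective x
    rw [hρ'] at h1 ⊢
    exact hnil x h1) (Ideal.Quotient.mk _ a)
  obtain ⟨b, rfl⟩ := Ideal.Quotient.mk_surjective b
  refine ⟨b, ?_⟩
  have h1 : (Ideal.Quotient.mk (RingHom.ker ρ) (a * b * a) : B) = Ideal.Quotient.mk _ a := by
    rw [map_mul, map_mul]
    exact hb
  rw [← hρ' (a * b * a), h1, hρ']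

end

end Pool.Agent.N209.CD
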