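import Pool.Agent.N209.CD.RegAlg
import Pool.Agent.N209.CD.Split
import Pool.Agent.Y116.MT.Trace

/-!
# The trace of an endomorphism as a functional on the cohomology
-/

set_option autoImplicit false
set_option linter.unusedSectionVars false
set_option linter.unusedSimpArgs false
set_option backward.isDefEq.respectTransparency false
set_option backward.defeqAttrib.useBackward true

open CategoryTheory Limits MonoidalCategory Pretriangulated Triangulated TensorProduct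

namespace Pool.Agent.N209.CD

open Pool.Agent.Y116.MT Pool.Agent.N209.MT

universe v u w

open Functor.LaxMonoidal

section Lin

variable {E : Type w} [Field E] {V W : Type w} [AddCommGroup V] [Module E V] [AddCommGroup W]
  [Module E W] [Module.Finite E V]

/-- The functional `φ ↦ p ((φ ⊗ 1) u)`. -/
noncomputable def fnl (p : V ⊗[E] W →ₗ[E] E) (u : V ⊗[E] W) : Module.End E V →ₗ[E] E :=
  p ∘ₗ (LinearMap.applyₗ u) ∘ₗ (LinearMap.rTensorHom W)

lemma fnl_apply (p : V ⊗[E] W →ₗ[E] E) (u : V ⊗[E] W) (φ : Module.End E V) :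
    fnl p u φ = p (LinearMap.rTensor W φ u) := rfl

/-- The operator `A` such that `fnl p u φ` is the trace of `φ ∘ A`. -/
noncomputable def opA (p : V ⊗[E] W →ₗ[E] E) : V ⊗[E] W →ₗ[E] Module.End E V :=
  TensorProduct.lift
    { toFun := fun v =>
        { toFun := fun w => (p ∘ₗ (TensorProduct.mk E V W).flip w).smulRight v
          map_add' := fun a b => by
            ext x
            simp [TensorProduct.tmul_add, add_smul]
          map_smul' := fun a b => by
            ext x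
            simp [mul_smul] }
      map_add' := fun a b => by
        ext w x
        simp
      map_smul' := fun a b => by
        ext w x
        simp [smul_smul, mul_comm] }

lemma opA_tmul (p : V ⊗[E] W →ₗ[E] E) (v : V) (w : W) (x : V) :
    opA p (v ⊗ₜ w) x = p (x ⊗ₜ w) • v := by
  simp [opA]

lemma fnl_eq_trace (p : V ⊗[E] W →ₗ[E] E) (u : V ⊗[E] W) (φ : Module.End E V) :
    fnl p u φ = LinearMap.trace E V (φ * opA p u) := by
  induction u using TensorProduct.induction_on with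
  | zero => simp [fnl_apply]
  | add a b ha hb =>
    rw [fnl_apply] at *
    rw [map_add, map_add, ha, hb, map_add, mul_add, map_add]
  | tmul v w =>
    rw [fnl_apply, LinearMap.rTensor_tmul]
    have h1 : φ * opA p (v ⊗ₜ[E] w) = (p ∘ₗ (TensorProduct.mk E V W).flip w).smulRight (φ v) := by
      ext x
      simp [opA_tmul]
    rw [h1, LinearMap.trace_smulRight]
    simp

lemma opA_comp_left (p : V ⊗[E] W →ₗ[E] E) (u : V ⊗[E] W) (φ : Module.End E V) :
    φ * opA p u = opA p (LinearMap.rTensor W φ u) := by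
  induction u using TensorProduct.induction_on with
  | zero => simp
  | add a b ha hb => simp only [map_add, mul_add, ha, hb]
  | tmul v w =>
    ext x
    simp [opA_tmul]

lemma opA_comp_right (p : V ⊗[E] W →ₗ[E] E) (u : V ⊗[E] W) (φ : Module.End E V)
    (ψ : W →ₗ[E] W) (h : p ∘ₗ LinearMap.rTensor W φ = p ∘ₗ LinearMap.lTensor V ψ) :
    opA p u * φ = opA p (LinearMap.lTensor V ψ u) := by
  induction u using TensorProduct.induction_on with
  | zero => simp
  | add a b ha hb => simp only [map_add, add_mul, ha, hb]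
  | tmul v w =>
    ext x
    have h1 : p (φ x ⊗ₜ[E] w) = p (x ⊗ₜ[E] ψ w) := by
      have := LinearMap.congr_fun h (x ⊗ₜ[E] w)
      simpa using this
    simp [opA_tmul, h1]

/-- The functional vanishes on nilpotent operators with an adjoint. -/
theorem fnl_nilpotent (p : V ⊗[E] W →ₗ[E] E) (u : V ⊗[E] W) (φ : Module.End E V)
    (ψ : W →ₗ[E] W) (h : p ∘ₗ LinearMap.rTensor W φ = p ∘ₗ LinearMap.lTensor V ψ)
    (hu : LinearMap.rTensor W φ u = LinearMap.lTensor V ψ u) (hφ : IsNilpotent φ) :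
    fnl p u φ = 0 := by
  have hc : Commute φ (opA p u) := by
    rw [Commute, SemiconjBy, opA_comp_left, opA_comp_right p u φ ψ h, hu]
  have h1 : IsNilpotent (φ * opA p u) := hc.isNilpotent_mul_right hφ
  have h2 := LinearMap.isNilpotent_trace_of_isNilpotent h1
  rw [fnl_eq_trace]
  exact h2.eq_zero

end Lin

section Cat

variable {C : Type u} [Category.{v} C] [Preadditive C] [HasZeroObject C] [HasShift C ℤ]
  [∀ n : ℤ, (shiftFunctor C n).Additive] [Pretriangulated C] [MonoidalCategory C]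
  [SymmetricCategory C] [TensorTriangulated C] [MonoidalPreadditive C]
  {E : Type w} [Field E]

section Pr

variable (R : Realisation C E) (X Y : C) (i : ℤ)

/-- The projection to a Künneth component. -/
noncomputable def pr : R.H.obj (X ⊗ Y) ⟶
    (R.H.obj (X⟦i⟧) ⊗ R.H.obj (Y⟦-i⟧) : ModuleCat.{w} E) := (exists_proj R X Y i).choose

lemma kc_pr : kc R X Y i ≫ pr R X Y i = 𝟙 _ := (exists_proj R X Y i).choose_spec.1

lemma kc_pr' {j : ℤ} (h : j ≠ i) : kc R X Y j ≫ pr R X Y i = 0 :=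
  (exists_proj R X Y i).choose_spec.2 j h

variable {X} in
lemma pr_natural_left {X' : C} (f : X ⟶ X') : R.H.map (f ▷ Y) ≫ pr R X' Y i =
    pr R X Y i ≫ (R.H.map (f⟦i⟧') ▷ R.H.obj (Y⟦-i⟧)) := by
  rw [← sub_eq_zero]
  apply kc_ext
  intro j
  rw [Preadditive.comp_sub, sub_eq_zero, ← Category.assoc, ← kc_natural_left, Category.assoc,
    ← Category.assoc (kc R X Y j)]
  by_cases h : j = i
  · subst h
    rw [kc_pr, kc_pr, Category.comp_id, Category.id_comp]
  · rw [kc_pr' R X' Y i h, kc_pr' R X Y i h, comp_zero, zero_comp]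

variable {Y} in
lemma pr_natural_right {Y' : C} (g : Y ⟶ Y') : R.H.map (X ◁ g) ≫ pr R X Y' i =
    pr R X Y i ≫ (R.H.obj (X⟦i⟧) ◁ R.H.map (g⟦-i⟧')) := by
  rw [← sub_eq_zero]
  apply kc_ext
  intro j
  rw [Preadditive.comp_sub, sub_eq_zero, ← Category.assoc, ← kc_natural_right, Category.assoc,
    ← Category.assoc (kc R X Y j)]
  by_cases h : j = i
  · subst h
    rw [kc_pr, kc_pr, Category.comp_id, Category.id_comp]
  · rw [kc_pr' R X Y' i h, kc_pr' R X Y i h, comp_zero, zero_comp]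

lemma sum_pr_kc (I : Finset ℤ) (hI : ∀ i, i ∉ I → IsZero (R.H.obj (X⟦i⟧))) :
    ∑ i ∈ I, pr R X Y i ≫ kc R X Y i = 𝟙 _ := by
  rw [← sub_eq_zero]
  apply kc_ext
  intro j
  rw [Preadditive.comp_sub, sub_eq_zero, Category.comp_id, Preadditive.comp_sum]
  by_cases h : j ∈ I
  · rw [Finset.sum_eq_single j]
    · rw [← Category.assoc, kc_pr, Category.id_comp]
    · intro b _ hb
      rw [← Category.assoc, kc_pr' R X Y b hb.symm, zero_comp]
    · exact fun h' => absurd h h'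
  · have h1 := tensor_subsingleton_left (N := R.H.obj (Y⟦-j⟧)) (hI j h)
    have h2 : IsZero (R.H.obj (X⟦j⟧) ⊗ R.H.obj (Y⟦-j⟧) : ModuleCat.{w} E) :=
      ModuleCat.isZero_of_subsingleton _
    exact h2.eq_of_src _ _

end Pr

variable [RightRigidCategory C] (R : Realisation C E) (X : C) (i : ℤ)

/-- The component of the coevaluation. -/
noncomputable def uu : (R.H.obj (X⟦i⟧) ⊗ R.H.obj (Xᘁ⟦-i⟧) : ModuleCat.{w} E) :=
  (ε R.H ≫ R.H.map (η_ X Xᘁ) ≫ pr R X Xᘁ i).hom (1 : E)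

/-- The component of the evaluation. -/
noncomputable def pp : (R.H.obj (X⟦i⟧) ⊗ R.H.obj (Xᘁ⟦-i⟧) : ModuleCat.{w} E) ⟶
    𝟙_ (ModuleCat.{w} E) :=
  kc R X Xᘁ i ≫ R.H.map ((β_ X Xᘁ).hom ≫ ε_ X Xᘁ) ≫ inv (ε R.H)

variable {X}

lemma uu_adjoint (a : X ⟶ X) : (R.H.map (a⟦i⟧') ▷ R.H.obj (Xᘁ⟦-i⟧)).hom (uu R X i) =
    (R.H.obj (X⟦i⟧) ◁ R.H.map ((aᘁ)⟦-i⟧')).hom (uu R X i) := by
  have h1 : (ε R.H ≫ R.H.map (η_ X Xᘁ) ≫ pr R X Xᘁ i) ≫
      (R.H.map (a⟦i⟧') ▷ R.H.obj (Xᘁ⟦-i⟧)) = (ε R.H ≫ R.H.map (η_ X Xᘁ) ≫ pr R X Xᘁ i) ≫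
      (R.H.obj (X⟦i⟧) ◁ R.H.map ((aᘁ)⟦-i⟧')) := by
    simp only [Category.assoc]
    rw [← pr_natural_left, ← pr_natural_right, ← Functor.map_comp_assoc, ← Functor.map_comp_assoc,
      coevaluation_comp_rightAdjointMate]
  exact ConcreteCategory.congr_hom h1 (1 : E)

lemma beta_ev_adjoint (a : X ⟶ X) : (a ▷ Xᘁ) ≫ (β_ X Xᘁ).hom ≫ ε_ X Xᘁ =
    (X ◁ aᘁ) ≫ (β_ X Xᘁ).hom ≫ ε_ X Xᘁ := by
  rw [BraidedCategory.braiding_naturality_left_assoc,
    BraidedCategory.braiding_naturality_right_assoc, rightAdjointMate_comp_evaluation]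

lemma pp_adjoint (a : X ⟶ X) : (R.H.map (a⟦i⟧') ▷ R.H.obj (Xᘁ⟦-i⟧)) ≫ pp R X i =
    (R.H.obj (X⟦i⟧) ◁ R.H.map ((aᘁ)⟦-i⟧')) ≫ pp R X i := by
  simp only [pp]
  rw [← Category.assoc, ← Category.assoc (R.H.obj (X⟦i⟧) ◁ _), kc_natural_left, kc_natural_right,
    Category.assoc, Category.assoc, ← Functor.map_comp_assoc, ← Functor.map_comp_assoc,
    beta_ev_adjoint]

lemma tr_cyclic (a b : X ⟶ X) : tr (a ≫ b) = tr (b ≫ a) := by
  simp only [tr, comp_whiskerRight, Category.assoc]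
  rw [beta_ev_adjoint b, ← whisker_exchange_assoc]
  have h1 := coevaluation_comp_rightAdjointMate b
  rw [reassoc_of% h1]

/-- The scalar by which an endomorphism of the unit acts on the realisation. -/
noncomputable def sc (x : 𝟙_ C ⟶ 𝟙_ C) : E := (ε R.H ≫ R.H.map x ≫ inv (ε R.H)).hom (1 : E)

lemma sc_add (x y : 𝟙_ C ⟶ 𝟙_ C) : sc R (x + y) = sc R x + sc R y := by
  simp only [sc, Functor.map_add, Preadditive.add_comp, Preadditive.comp_add]
  rfl

lemma sc_one : sc R (𝟙 (𝟙_ C)) = 1 := by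
  simp only [sc, CategoryTheory.Functor.map_id, Category.id_comp, IsIso.hom_inv_id]
  rfl

lemma sc_comp (x y : 𝟙_ C ⟶ 𝟙_ C) : sc R (x ≫ y) = sc R x * sc R y := by
  let f : 𝟙_ (ModuleCat.{w} E) ⟶ 𝟙_ (ModuleCat.{w} E) := ε R.H ≫ R.H.map x ≫ inv (ε R.H)
  let g : 𝟙_ (ModuleCat.{w} E) ⟶ 𝟙_ (ModuleCat.{w} E) := ε R.H ≫ R.H.map y ≫ inv (ε R.H)
  have h1 : ε R.H ≫ R.H.map (x ≫ y) ≫ inv (ε R.H) = f ≫ g := by
    simp only [f, g, Functor.map_comp, Category.assoc, IsIso.inv_hom_id_assoc]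
  have h2 : sc R (x ≫ y) = (f ≫ g).hom (1 : E) := by
    simp only [sc]
    rw [h1]
  rw [h2]
  change g.hom (f.hom (1 : E)) = f.hom (1 : E) * g.hom (1 : E)
  have h3 : ∀ e : E, (g.hom e : E) = e * g.hom (1 : E) := by
    intro e
    have := g.hom.map_smul e (1 : E)
    simpa [smul_eq_mul] using this
  exact h3 _

/-- The trace is the sum of the functionals. -/
lemma sc_tr (I : Finset ℤ) (hI : ∀ i, i ∉ I → IsZero (R.H.obj (X⟦i⟧))) (a : X ⟶ X) :
    sc R (tr a) = ∑ i ∈ I, fnl (pp R X i).hom (uu R X i) (R.H.map (a⟦i⟧')).hom := by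
  have h1 : ε R.H ≫ R.H.map (tr a) ≫ inv (ε R.H) = ∑ i ∈ I,
      (ε R.H ≫ R.H.map (η_ X Xᘁ) ≫ pr R X Xᘁ i) ≫ (R.H.map (a⟦i⟧') ▷ R.H.obj (Xᘁ⟦-i⟧)) ≫
        pp R X i := by
    have h2 : ε R.H ≫ R.H.map (tr a) ≫ inv (ε R.H) = ε R.H ≫ R.H.map (η_ X Xᘁ) ≫
        (∑ i ∈ I, pr R X Xᘁ i ≫ kc R X Xᘁ i) ≫ R.H.map (a ▷ Xᘁ) ≫
          R.H.map ((β_ X Xᘁ).hom ≫ ε_ X Xᘁ) ≫ inv (ε R.H) := by
      rw [sum_pr_kc R X Xᘁ I hI, Category.id_comp]
      simp only [tr, Functor.map_comp, Category.assoc]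
    rw [h2]
    simp only [Preadditive.sum_comp, Preadditive.comp_sum]
    refine Finset.sum_congr rfl fun i _ => ?_
    simp only [pp, Category.assoc]
    rw [← Category.assoc (R.H.map (a⟦i⟧') ▷ _), kc_natural_left, Category.assoc]
  simp only [sc]
  rw [h1]
  have h3 : ∀ (s : Finset ℤ) (F : ℤ → ((𝟙_ (ModuleCat.{w} E)) ⟶ 𝟙_ (ModuleCat.{w} E))),
      (∑ i ∈ s, F i).hom (1 : E) = ∑ i ∈ s, (F i).hom (1 : E) := by
    intro s F
    classical
    induction s using Finset.induction_on with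
    | empty => rfl
    | insert i s hi ih =>
      rw [Finset.sum_insert hi, Finset.sum_insert hi, ← ih]
      rfl
  rw [h3]
  rfl

/-- The rational number field acts. -/
noncomputable def ratHom [Linear ℚ C] : ℚ →+* E where
  toFun q := sc R (q • 𝟙 (𝟙_ C))
  map_one' := by rw [one_smul, sc_one]
  map_mul' x y := by
    rw [← sc_comp, Linear.smul_comp, Category.id_comp, smul_smul]
  map_zero' := by
    have h1 := sc_add R (0 : 𝟙_ C ⟶ 𝟙_ C) 0
    rw [add_zero] at h1
    rw [zero_smul]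
    simpa using h1
  map_add' x y := by rw [add_smul, sc_add]

variable (X) in
/-- The representation of the endomorphisms of `X` on the cohomology groups in a finite set of
degrees. -/
noncomputable def repr (I : Finset ℤ) : End X →+*
    Module.End E (∀ i : I, R.H.obj (X⟦(i : ℤ)⟧)) where
  toFun a := LinearMap.pi fun i => (R.H.map ((a : X ⟶ X)⟦(i : ℤ)⟧')).hom ∘ₗ LinearMap.proj i
  map_one' := by
    ext x i
    simp [End.one_def]
  map_mul' a b := by
    ext x i
    simp [End.mul_def]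
  map_zero' := by
    ext x i
    simp
  map_add' a b := by
    refine LinearMap.ext fun x => funext fun i => ?_
    change (R.H.map ((shiftFunctor C (i : ℤ)).map ((a : X ⟶ X) + (b : X ⟶ X)))).hom (x i) = _
    rw [Functor.map_add, Functor.map_add]
    rfl

variable (X) in
/-- The compression of an operator. -/
noncomputable def cmp (I : Finset ℤ) (i : I) : Module.End E (∀ i : I, R.H.obj (X⟦(i : ℤ)⟧)) →ₗ[E]
    Module.End E (R.H.obj (X⟦(i : ℤ)⟧)) where
  toFun φ := LinearMap.proj i ∘ₗ φ ∘ₗ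
    LinearMap.single E (fun i : I => R.H.obj (X⟦(i : ℤ)⟧)) i
  map_add' _ _ := rfl
  map_smul' _ _ := rfl

lemma cmp_repr (I : Finset ℤ) (i : I) (a : End X) :
    cmp R X I i (repr R X I a) = (R.H.map ((a : X ⟶ X)⟦(i : ℤ)⟧')).hom := by
  ext x
  simp [cmp, repr]

lemma repr_pow_apply (I : Finset ℤ) (i : I) (a : End X) (n : ℕ)
    (x : ∀ i : I, R.H.obj (X⟦(i : ℤ)⟧)) :
    ((repr R X I a) ^ n) x i = ((R.H.map ((a : X ⟶ X)⟦(i : ℤ)⟧')).hom ^ n) (x i) := by
  induction n generalizing x with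
  | zero => simp
  | succ n ih =>
    rw [pow_succ, pow_succ, Module.End.mul_apply, Module.End.mul_apply, ih]
    rfl

lemma nilpotent_comp (I : Finset ℤ) (i : I) (a : End X) (h : IsNilpotent (repr R X I a)) :
    IsNilpotent (R.H.map ((a : X ⟶ X)⟦(i : ℤ)⟧')).hom := by
  classical
  obtain ⟨n, hn⟩ := h
  refine ⟨n, ?_⟩
  ext x
  have h1 := repr_pow_apply R I i a n (Pi.single i x)
  rw [hn, Pi.single_eq_same] at h1
  exact h1.symm

end Cat

end Pool.Agent.N209.CD
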