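import Pool.Agent.N209.CD.Reg
import Pool.Agent.N209.CD.Defs
import Pool.Agent.N209.MT.TStr

/-!
# Chow classes: weight dévissage
-/

set_option autoImplicit false
set_option linter.unusedSectionVars false
set_option linter.unusedSimpArgs false
set_option backward.isDefEq.respectTransparency false
set_option backward.defeqAttrib.useBackward true

open CategoryTheory Limits MonoidalCategory Pretriangulated Triangulated ObjectProperty

namespace Pool.Agent.N209.CD

open Pool.Agent.Y116.MT Pool.Agent.N209.MT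

universe v u w

section Neg

variable {C : Type u} [Category.{v} C] [Preadditive C] [HasZeroObject C] [HasShift C ℤ]
  [∀ n : ℤ, (shiftFunctor C n).Additive] [Pretriangulated C]

/-- A class of objects without positive extensions. -/
structure Neg (W : ObjectProperty C) : Prop where
  retract : W.IsStableUnderRetracts
  zero : W.ContainsZero
  sum (M N : C) : W M → W N → W (M ⊞ N)
  orth (M N : C) : W M → W N → ∀ n : ℤ, 0 < n → ∀ f : M ⟶ N⟦n⟧, f = 0

variable {W : ObjectProperty C} (hW : Neg W)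

include hW

lemma Neg.iso : W.IsClosedUnderIsomorphisms :=
  have := hW.retract
  ⟨fun e h => W.prop_of_retract ⟨e.inv, e.hom, by simp⟩ h⟩

lemma Neg.zero_of {X : C} (hX : IsZero X) : W X := by
  have := hW.iso
  obtain ⟨Z, hZ, hP0⟩ := hW.zero.exists_zero
  exact W.prop_of_iso (hZ.iso hX) hP0

lemma Neg.degs_zero {S : ℤ → Prop} {n : ℤ} (hn : S n) : (degs W S).ContainsZero :=
  ⟨⟨_, isZero_zero C, n, hn, hW.zero_of ((shiftFunctor C n).map_isZero (isZero_zero C))⟩⟩

lemma Neg.orth' {X Y : C} {a b : ℤ} (hX : W (X⟦a⟧)) (hY : W (Y⟦b⟧)) (h : b < a)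
    (f : X ⟶ Y) : f = 0 := by
  apply (shiftFunctor C a).map_injective
  rw [Functor.map_zero]
  have h1 : f⟦a⟧' ≫ (shiftFunctorAdd' C b (a - b) a (by omega)).hom.app Y = 0 :=
    hW.orth _ _ hX hY (a - b) (by omega) _
  rw [← cancel_mono ((shiftFunctorAdd' C b (a - b) a (by omega)).hom.app Y), h1, zero_comp]

lemma Neg.shift_mem {X : C} {n : ℤ} (h : W (X⟦n⟧)) (a b : ℤ) (hab : a + b = n) :
    W (X⟦a⟧⟦b⟧) := by
  have := hW.iso
  exact W.prop_of_iso ((shiftFunctorAdd' C a b n hab).app X) h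

lemma Neg.swap {S S' : ℤ → Prop} (h : ∀ n m, S n → S' m → n ≤ m) :
    extensionProduct (degs W S) (degs W S') ≤ extensionProduct (degs W S') (degs W S) := by
  have := hW.iso
  rintro Y ⟨X, Z, f, g, k, hT, ⟨n, hn, hX⟩, ⟨m, hm, hZ⟩⟩
  have hX' : W (X⟦(1 : ℤ)⟧⟦n - 1⟧) := hW.shift_mem hX 1 (n - 1) (by omega)
  have hk : k = 0 := hW.orth' hZ hX' (by have := h n m hn hm; omega) k
  obtain ⟨e, -, -⟩ := exists_iso_binaryBiproduct_of_distTriang _ hT hk
  have h1 : extensionProduct (degs W S') (degs W S) (Z ⊞ X) :=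
    ⟨_, _, _, _, _, binaryBiproductTriangle_distinguished Z X, ⟨m, hm, hZ⟩, ⟨n, hn, hX⟩⟩
  exact prop_of_iso _ (biprod.braiding Z X ≪≫ e.symm) h1

variable [IsTriangulated C]

/-- Objects in degrees `≥ m` have a filtration with the part in degree `m` as a quotient. -/
lemma Neg.sort (m : ℤ) : ec (degs W (m ≤ ·)) ≤
    extensionProduct (ec (degs W (m + 1 ≤ ·))) (ec (degs W (· = m))) := by
  have h0 : (ec (degs W (m + 1 ≤ ·))).ContainsZero := by
    obtain ⟨Z, hZ, h⟩ := (hW.degs_zero (S := (m + 1 ≤ ·)) (n := m + 1) le_rfl).exists_zero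
    exact ⟨⟨Z, hZ, le_ec _ _ h⟩⟩
  have h1 : (ec (degs W (· = m))).ContainsZero := by
    obtain ⟨Z, hZ, h⟩ := (hW.degs_zero (S := (· = m)) (n := m) rfl).exists_zero
    exact ⟨⟨Z, hZ, le_ec _ _ h⟩⟩
  refine ec_le ?_ ?_
  · rintro X ⟨n, hn, h⟩
    by_cases hn' : n = m
    · exact le_extensionProduct_right _ _ (le_ec _ _ ⟨n, hn', h⟩)
    · exact le_extensionProduct_left _ _ (le_ec _ _ ⟨n, show m + 1 ≤ n by
        have : m ≤ n := hn
        omega, h⟩)
  · intro X Y Z f g h hT hX hZ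
    exact prod_ext (hW.swap (S := (· = m)) (S' := (m + 1 ≤ ·)) (by
      intro n n' (h : n = m) (h' : m + 1 ≤ n')
      omega)) _ ⟨_, _, _, _, _, hT, hX, hZ⟩

lemma Neg.ec_single (m : ℤ) {X : C} (h : ec (degs W (· = m)) X) : W (X⟦m⟧) := by
  have := hW.iso
  have hb := preservesBinaryBiproducts_of_preservesBiproducts (shiftFunctor C m)
  have h1 : ec (degs W (· = m)) ≤ (fun X => W (X⟦m⟧)) := by
    refine ec_le ?_ ?_
    · rintro X ⟨n, rfl, h'⟩
      exact h'
    · intro X Y Z f g k hT hX hZ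
      have hk : k = 0 := hW.orth' hZ (hW.shift_mem hX 1 (m - 1) (by omega)) (by omega) k
      obtain ⟨e, -, -⟩ := exists_iso_binaryBiproduct_of_distTriang _ hT hk
      exact W.prop_of_iso (((shiftFunctor C m).mapBiprod X Z).symm ≪≫
        (shiftFunctor C m).mapIso e.symm) (hW.sum _ _ hX hZ)
  exact h1 X h

lemma Neg.ec_hom_zero {S S' : ℤ → Prop} (h : ∀ a b, S a → S' b → b < a) {X Y : C}
    (hX : ec (degs W S) X) (hY : ec (degs W S') Y) (f : X ⟶ Y) : f = 0 := by
  have h1 : ∀ A, degs W S A → ec (degs W S') ≤ (fun B => ∀ f : A ⟶ B, f = 0) := by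
    rintro A ⟨a, ha, hA⟩
    refine ec_le ?_ ?_
    · rintro B ⟨b, hb, hB⟩ f
      exact hW.orth' hA hB (h a b ha hb) f
    · intro X Y Z f g k hT hX hZ φ
      obtain ⟨l, rfl⟩ := ce2 hT φ (hZ _)
      rw [hX l, zero_comp]
  have h2 : ec (degs W S) ≤ (fun A => ∀ f : A ⟶ Y, f = 0) := by
    refine ec_le ?_ ?_
    · intro A hA
      exact h1 A hA Y hY
    · intro X Y Z f g k hT hX hZ φ
      obtain ⟨l, rfl⟩ := ye2 hT φ (hX _)
      rw [hZ l, comp_zero]
  exact h2 X hX f

omit hW in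
lemma ec_bounded (W : ObjectProperty C) {X : C} (h : ec (degs W (fun _ => True)) X) :
    ∃ m : ℤ, ec (degs W (· ≤ m)) X ∧ ec (degs W (-m ≤ ·)) X := by
  have h1 : ec (degs W (fun _ => True)) ≤
      (fun Y => ∃ m : ℤ, ec (degs W (· ≤ m)) Y ∧ ec (degs W (-m ≤ ·)) Y) := by
    refine ec_le ?_ ?_
    · rintro X ⟨n, -, hX⟩
      exact ⟨n.natAbs, le_ec _ _ ⟨n, by omega, hX⟩, le_ec _ _ ⟨n, by omega, hX⟩⟩
    · rintro X Y Z f g k hT ⟨m, hm1, hm2⟩ ⟨m', hm1', hm2'⟩
      refine ⟨max m m', ec_ext _ hT ?_ ?_, ec_ext _ hT ?_ ?_⟩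
      · exact ec_mono (degs_mono fun k (hk : k ≤ m) => by omega) _ hm1
      · exact ec_mono (degs_mono fun k (hk : k ≤ m') => by omega) _ hm1'
      · exact ec_mono (degs_mono fun k (hk : -m ≤ k) => by omega) _ hm2
      · exact ec_mono (degs_mono fun k (hk : -m' ≤ k) => by omega) _ hm2'
  exact h1 X h

lemma Neg.ec_shift {X : C} (h : ec (degs W (fun _ => True)) X) (a : ℤ) :
    ec (degs W (fun _ => True)) (X⟦a⟧) := by
  refine ec_shiftBy a ?_ h
  rintro X ⟨n, -, hX⟩
  exact ⟨n - a, trivial, hW.shift_mem hX a (n - a) (by omega)⟩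

/-- Every object is a retract of an iterated extension of shifts of objects of a generating
class. -/
theorem Neg.retract_ec (hg : W.IsClassicalTriangulatedGenerator) (X : C) :
    ∃ Y, ec (degs W (fun _ => True)) Y ∧ Nonempty (Retract X Y) := by
  have h1 : (degs W (fun _ => True)).IsStableUnderShift ℤ :=
    { isStableUnderShiftBy := fun a => IsStableUnderShiftBy.mk <| by
        rintro X ⟨n, -, h⟩
        exact ⟨n - a, trivial, hW.shift_mem h a (n - a) (by omega)⟩ }
  have h2 := Pool.Agent.N209.MT.ec_shift (P := degs W (fun _ => True))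
  have h3 : (ec (degs W (fun _ => True))).retractClosure.IsTriangulated := by
    have : (ec (degs W (fun _ => True))).retractClosure.ContainsZero := by
      obtain ⟨Z, hZ, h⟩ := (hW.degs_zero (S := fun _ => True) (n := 0) trivial).exists_zero
      exact ⟨⟨Z, hZ, le_retractClosure _ _ (le_ec _ _ h)⟩⟩
    have : (ec (degs W (fun _ => True))).retractClosure.IsTriangulatedClosed₂ := by
      apply IsTriangulatedClosed₂.mk'
      intro T hT h1 h3
      have := extensionProduct_retractClosure_retractClosure_le _ _ _ ⟨_, _, _, _, _, hT, h1, h3⟩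
      refine monotone_retractClosure ?_ _ this
      rintro Y ⟨X, Z, f, g, k, hT, hX, hZ⟩
      exact ec_ext _ hT hX hZ
    constructor
  have h4 : W.triangEnvelope ≤ (ec (degs W (fun _ => True))).retractClosure := by
    rw [triangEnvelope_le_iff]
    intro X hX
    refine le_retractClosure _ _ (le_ec _ _ ⟨0, trivial, ?_⟩)
    have := hW.iso
    exact W.prop_of_iso ((shiftFunctorZero C ℤ).app X).symm hX
  rw [hg] at h4
  obtain ⟨Y, hY, ⟨r⟩⟩ := h4 X trivial
  exact ⟨Y, hY, ⟨r⟩⟩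

end Neg

section Weight

variable {C : Type u} [Category.{v} C] [Preadditive C] [HasZeroObject C] [HasShift C ℤ]
  [∀ n : ℤ, (shiftFunctor C n).Additive] [Pretriangulated C] [MonoidalCategory C]
  [SymmetricCategory C] [TensorTriangulated C]
  {E : Type w} [Field E]

variable {R : Realisation C E} {W : ObjectProperty C} (w : Weights R W)

/-- The polynomial `Q` evaluated at the operator `θ`. -/
noncomputable def Weights.ev (X : C) (Q : Polynomial E) : Module.End E (R.H.obj X) :=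
  Polynomial.aeval (R := E) (A := Module.End E (R.H.obj X)) (w.θ.app X).hom Q

lemma Weights.ev_natural {X Y : C} (f : X ⟶ Y) (Q : Polynomial E) (x : R.H.obj X) :
    w.ev Y Q ((R.H.map f).hom x) = (R.H.map f).hom (w.ev X Q x) := by
  have h1 : ∀ x, (w.θ.app Y).hom ((R.H.map f).hom x) = (R.H.map f).hom ((w.θ.app X).hom x) := by
    intro x
    exact ConcreteCategory.congr_hom (w.θ.naturality f) x
  induction Q using Polynomial.induction_on' generalizing x with
  | add p q hp hq =>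
    simp only [Weights.ev, map_add, LinearMap.add_apply] at hp hq ⊢
    rw [hp, hq]
  | monomial n a =>
    simp only [Weights.ev, Polynomial.aeval_monomial, Module.End.mul_apply,
      Module.algebraMap_end_apply]
    rw [map_smul]
    congr 1
    induction n generalizing x with
    | zero => simp
    | succ n ih =>
      rw [pow_succ, pow_succ, Module.End.mul_apply, Module.End.mul_apply, h1, ih]

lemma Weights.ev_mul (X : C) (P Q : Polynomial E) (x : R.H.obj X) :
    w.ev X (P * Q) x = w.ev X P (w.ev X Q x) := by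
  simp [Weights.ev]

/-- The cohomology of `Y` has low weights: the weights of the `i`-th cohomology are at most
`i - c`. -/
def Weights.Low (c : ℤ) (Y : C) : Prop := ∀ i : ℤ, ∃ Q : Polynomial E, w.ev (Y⟦i⟧) Q = 0 ∧
  ∀ (j : ℤ) (P : Polynomial E), i - c < j → w.pure j P → IsCoprime Q P

lemma Weights.ev_iso {X Y : C} (e : X ≅ Y) {Q : Polynomial E} (h : w.ev X Q = 0) :
    w.ev Y Q = 0 := by
  refine LinearMap.ext fun y => ?_
  have h1 : y = (R.H.map e.hom).hom ((R.H.map e.inv).hom y) := by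
    have h2 : (R.H.map e.inv ≫ R.H.map e.hom).hom y = y := by
      rw [← Functor.map_comp, e.inv_hom_id, CategoryTheory.Functor.map_id]
      rfl
    exact h2.symm
  rw [h1, w.ev_natural, h]
  simp

/-- Exactness of the cohomology sequence, for elements. -/
lemma exact_elt {X Y Z : C} {f : X ⟶ Y} {g : Y ⟶ Z} {h : Z ⟶ X⟦(1 : ℤ)⟧}
    (hT : Triangle.mk f g h ∈ distTriang C) (n : ℤ) (y : R.H.obj (Y⟦n⟧))
    (hy : (R.H.map (g⟦n⟧')).hom y = 0) : ∃ x, (R.H.map (f⟦n⟧')).hom x = y := by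
  let _ := Functor.ShiftSequence.tautological R.H ℤ
  have h1 := R.H.homologySequence_exact₂ _ hT n
  rw [ShortComplex.moduleCat_exact_iff] at h1
  exact h1 y hy

lemma Weights.low_of_mem (hW : W.IsClosedUnderIsomorphisms) {c n : ℤ} (hn : c ≤ n) {Y : C}
    (hY : W (Y⟦n⟧)) : w.Low c Y := by
  intro i
  obtain ⟨P, hP, hP'⟩ := w.exists_pure _ hY (i - n)
  refine ⟨P, w.ev_iso ((shiftFunctorAdd' C n (i - n) i (by omega)).app Y).symm hP', ?_⟩
  intro j Q hj hQ
  exact w.coprime (by omega) hP hQ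

lemma Weights.low_ext {c : ℤ} {X Y Z : C} {f : X ⟶ Y} {g : Y ⟶ Z} {h : Z ⟶ X⟦(1 : ℤ)⟧}
    (hT : Triangle.mk f g h ∈ distTriang C) (hX : w.Low c X) (hZ : w.Low c Z) : w.Low c Y := by
  intro i
  obtain ⟨P, hP, hP'⟩ := hX i
  obtain ⟨Q, hQ, hQ'⟩ := hZ i
  refine ⟨P * Q, LinearMap.ext fun y => ?_, fun j S hj hS => (hP' j S hj hS).mul_left
    (hQ' j S hj hS)⟩
  rw [w.ev_mul]
  obtain ⟨x, hx⟩ := exact_elt hT i (w.ev _ Q y) (by rw [← w.ev_natural, hQ]; rfl)
  rw [← hx, w.ev_natural, hP]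
  simp

variable [IsTriangulated C]

lemma Weights.low_ec (hW : W.IsClosedUnderIsomorphisms) {c : ℤ} {Y : C}
    (hY : ec (degs W (c ≤ ·)) Y) : w.Low c Y := by
  have h1 : ec (degs W (c ≤ ·)) ≤ (fun Y => w.Low c Y) := by
    refine ec_le ?_ ?_
    · rintro Y ⟨n, hn, hY⟩
      exact w.low_of_mem hW hn hY
    · intro X Y Z f g h hT hX hZ
      exact w.low_ext hT hX hZ
  exact h1 Y hY

end Weight

end Pool.Agent.N209.CD
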